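import Mathlib
import Pool.Agent.TH278.DX.Defs2
set_option autoImplicit false

namespace Pool.Agent.TH278.DX

section J4953

open scoped ComplexConjugate

/-- complex extension of a mean -/
noncomputable def j4953mC {G : Type} (m : (G → ℝ) → ℝ) (f : G → ℂ) : ℂ :=
  (m (fun x => (f x).re) : ℂ) + (m (fun x => (f x).im) : ℂ) * Complex.I

lemma j4953_re {G : Type} (m : (G → ℝ) → ℝ) (f : G → ℂ) :
    (j4953mC m f).re = m (fun x => (f x).re) := by
  simp [j4953mC]

lemma j4953_im {G : Type} (m : (G → ℝ) → ℝ) (f : G → ℂ) :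
    (j4953mC m f).im = m (fun x => (f x).im) := by
  simp [j4953mC]

lemma j4953_bre {G : Type} {f : G → ℂ} (hf : ∃ C, ∀ x, ‖f x‖ ≤ C) :
    ∃ C, ∀ x, |(f x).re| ≤ C := by
  obtain ⟨C, hC⟩ := hf
  exact ⟨C, fun x => (Complex.abs_re_le_norm _).trans (hC x)⟩

lemma j4953_bim {G : Type} {f : G → ℂ} (hf : ∃ C, ∀ x, ‖f x‖ ≤ C) :
    ∃ C, ∀ x, |(f x).im| ≤ C := by
  obtain ⟨C, hC⟩ := hf
  exact ⟨C, fun x => (Complex.abs_im_le_norm _).trans (hC x)⟩

lemma j4953_exists {G : Type} [Group G] (hG : Amenable G) :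
    ∃ M : (G → ℂ) → ℂ,
      (∀ f h : G → ℂ, (∃ C, ∀ x, ‖f x‖ ≤ C) → (∃ C, ∀ x, ‖h x‖ ≤ C) →
        M (fun x => f x + h x) = M f + M h) ∧
      (∀ (r : ℂ) (f : G → ℂ), (∃ C, ∀ x, ‖f x‖ ≤ C) → M (fun x => r * f x) = r * M f) ∧
      (∀ (c : ℂ), M (fun _ => c) = c) ∧
      (∀ (f : G → ℂ) (C : ℝ), (∀ x, ‖f x‖ ≤ C) → ‖M f‖ ≤ C) ∧
      ∀ (g : G) (f : G → ℂ), (∃ C, ∀ x, ‖f x‖ ≤ C) → M (fun x => f (g * x)) = M f := by
  obtain ⟨m, hadd, hsmul, hpos, hone, hinv⟩ := hG
  have hadd' : ∀ f h : G → ℂ, (∃ C, ∀ x, ‖f x‖ ≤ C) → (∃ C, ∀ x, ‖h x‖ ≤ C) →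
        j4953mC m (fun x => f x + h x) = j4953mC m f + j4953mC m h := by
    intro f h hf hh
    apply Complex.ext
    · rw [Complex.add_re, j4953_re, j4953_re, j4953_re]
      simp only [Complex.add_re]
      exact hadd _ _ (j4953_bre hf) (j4953_bre hh)
    · rw [Complex.add_im, j4953_im, j4953_im, j4953_im]
      simp only [Complex.add_im]
      exact hadd _ _ (j4953_bim hf) (j4953_bim hh)
  have hsmul' : ∀ (r : ℂ) (f : G → ℂ), (∃ C, ∀ x, ‖f x‖ ≤ C) →
      j4953mC m (fun x => r * f x) = r * j4953mC m f := by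
    intro r f hf
    have h1 := j4953_bre hf
    have h2 := j4953_bim hf
    have hb : ∀ (s : ℝ) (u : G → ℝ), (∃ C, ∀ x, |u x| ≤ C) → ∃ C, ∀ x, |s * u x| ≤ C := by
      intro s u ⟨C, hC⟩
      refine ⟨|s| * C, fun x => ?_⟩
      rw [abs_mul]
      exact mul_le_mul_of_nonneg_left (hC x) (abs_nonneg _)
    apply Complex.ext
    · rw [Complex.mul_re, j4953_re, j4953_re, j4953_im]
      have : (fun x => (r * f x).re) = fun x => r.re * (f x).re + (-r.im) * (f x).im := by
        funext x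
        rw [Complex.mul_re]; ring
      rw [this, hadd _ _ (hb _ _ h1) (hb _ _ h2), hsmul _ _ h1, hsmul _ _ h2]
      ring
    · rw [Complex.mul_im, j4953_im, j4953_re, j4953_im]
      have : (fun x => (r * f x).im) = fun x => r.re * (f x).im + r.im * (f x).re := by
        funext x
        rw [Complex.mul_im]
      rw [this, hadd _ _ (hb _ _ h2) (hb _ _ h1), hsmul _ _ h2, hsmul _ _ h1]
  have hle : ∀ (u : G → ℝ) (C : ℝ), (∃ C, ∀ x, |u x| ≤ C) → (∀ x, u x ≤ C) → m u ≤ C := by
    intro u C hu hC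
    have hb1 : ∃ D, ∀ x : G, |(fun _ : G => (1 : ℝ)) x| ≤ D := ⟨1, fun x => by simp⟩
    have hbC : ∃ D, ∀ x : G, |(fun _ : G => C * 1) x| ≤ D := ⟨|C|, fun x => by simp⟩
    have hbu : ∃ D, ∀ x : G, |(fun x : G => (-1) * u x) x| ≤ D := by
      obtain ⟨D, hD⟩ := hu
      exact ⟨D, fun x => by simpa using hD x⟩
    have h0 : 0 ≤ m (fun x => C * 1 + (-1) * u x) := by
      apply hpos
      · obtain ⟨D, hD⟩ := hu
        refine ⟨|C| + D, fun x => (abs_add_le _ _).trans ?_⟩
        have := hD x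
        simp only [mul_one, neg_mul, one_mul, abs_neg]
        linarith
      · intro x
        have := hC x
        linarith
    rw [hadd _ _ hbC hbu, hsmul C (fun _ => 1) hb1, hone, hsmul (-1) u hu] at h0
    linarith
  have hnorm : ∀ (f : G → ℂ) (C : ℝ), (∀ x, ‖f x‖ ≤ C) → ‖j4953mC m f‖ ≤ C := by
    intro f C hC
    by_cases hz : j4953mC m f = 0
    · rw [hz, norm_zero]
      exact (norm_nonneg _).trans (hC 1)
    · have hn : (‖j4953mC m f‖ : ℂ) ≠ 0 := by
        simpa using hz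
      set z := j4953mC m f with hzdef
      let c : ℂ := conj z / (‖z‖ : ℂ)
      have hc : ‖c‖ = 1 := by
        simp only [c, norm_div, RCLike.norm_conj, Complex.norm_real, norm_norm]
        exact div_self (by simpa using hz)
      have h1 : j4953mC m (fun x => c * f x) = c * z := hsmul' c f ⟨C, hC⟩
      have h2 : c * z = (‖z‖ : ℂ) := by
        simp only [c]
        rw [div_mul_eq_mul_div, Complex.conj_mul']
        field_simp
      have h3 : ‖z‖ = m (fun x => (c * f x).re) := by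
        rw [← j4953_re m (fun x => c * f x), h1, h2, Complex.ofReal_re]
      rw [h3]
      have hcf : ∀ x, ‖c * f x‖ ≤ C := fun x => by
        rw [norm_mul, hc, one_mul]; exact hC x
      exact hle _ C (j4953_bre ⟨C, hcf⟩) (fun x => (Complex.re_le_norm _).trans (hcf x))
  refine ⟨j4953mC m, hadd', hsmul', ?_, hnorm, ?_⟩
  · intro c
    have h := hsmul' c (fun _ => 1) ⟨1, fun x => by simp⟩
    have h1 : j4953mC m (fun _ => 1) = 1 := by
      have h0 : m (fun _ => 0) = 0 := by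
        have := hsmul 0 (fun _ => 1) ⟨1, fun x => by simp⟩
        simpa using this
      simp [j4953mC, hone, h0]
    rw [h1, mul_one] at h
    simpa using h
  · intro g f hf
    apply Complex.ext
    · rw [j4953_re, j4953_re]
      have := hinv g⁻¹ (fun x => (f x).re) (j4953_bre hf)
      simpa using this
    · rw [j4953_im, j4953_im]
      have := hinv g⁻¹ (fun x => (f x).im) (j4953_bim hf)
      simpa using this

theorem amenable_dist {G : Type} [Group G] (hG : Amenable G) :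
    ∀ (H : Type) [NormedAddCommGroup H] [InnerProductSpace ℂ H] [CompleteSpace H]
      (σ : G →* (H →L[ℂ] H)ˣ), (∀ g, ((σ g : (H →L[ℂ] H)ˣ) : H →L[ℂ] H) ∈ unitary (H →L[ℂ] H)) →
      ∀ (T : H →L[ℂ] H) (d : ℝ),
      (∀ g, ‖((σ g : (H →L[ℂ] H)ˣ) : H →L[ℂ] H) * T - T * ((σ g : (H →L[ℂ] H)ˣ) : H →L[ℂ] H)‖ ≤ d) →
      Metric.infDist T {C : H →L[ℂ] H | ∀ g, C * ((σ g : (H →L[ℂ] H)ˣ) : H →L[ℂ] H) =
        ((σ g : (H →L[ℂ] H)ˣ) : H →L[ℂ] H) * C} ≤ 1 * d := by
  intro H _ _ _ σ hσ T d hd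
  obtain ⟨M, hadd, hsmul, hconst, hnorm, hinv⟩ := j4953_exists hG
  have hd0 : 0 ≤ d := (norm_nonneg _).trans (hd 1)
  -- the operators
  set U : G → (H →L[ℂ] H) := fun g => ((σ g : (H →L[ℂ] H)ˣ) : H →L[ℂ] H) with hU
  have hUmul : ∀ g h, U (g * h) = U g * U h := fun g h => by simp [hU]
  have hUinv : ∀ g, U g⁻¹ = star (U g) := by
    intro g
    have h1 : U g⁻¹ * U g = 1 := by simp [hU]
    have h2 : star (U g) * U g = 1 := Unitary.star_mul_self_of_mem (hσ g)
    have h3 : U g * star (U g) = 1 := Unitary.mul_star_self_of_mem (hσ g)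
    calc U g⁻¹ = U g⁻¹ * (U g * star (U g)) := by rw [h3, mul_one]
      _ = star (U g) := by rw [← mul_assoc, h1, one_mul]
  have hUU : ∀ g (x : H), U g (U g⁻¹ x) = x := fun g x => by
    have : U g * U g⁻¹ = 1 := by simp [hU]
    calc U g (U g⁻¹ x) = (U g * U g⁻¹) x := rfl
      _ = x := by rw [this]; rfl
  have hUU' : ∀ g (x : H), U g⁻¹ (U g x) = x := fun g x => by
    have : U g⁻¹ * U g = 1 := by simp [hU]
    calc U g⁻¹ (U g x) = (U g⁻¹ * U g) x := rfl
      _ = x := by rw [this]; rfl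
  have hadj : ∀ g (x y : H), inner ℂ (U g x) y = inner ℂ x (U g⁻¹ y) := by
    intro g x y
    rw [hUinv g, ContinuousLinearMap.star_eq_adjoint, ContinuousLinearMap.adjoint_inner_right]
  have hUn : ∀ g (x : H), ‖U g x‖ = ‖x‖ := by
    intro g x
    have h1 : ‖U g x‖ ^ 2 = ‖x‖ ^ 2 := by
      have := hadj g x (U g x)
      rw [hUU'] at this
      rw [inner_self_eq_norm_sq_to_K, inner_self_eq_norm_sq_to_K] at this
      exact_mod_cast this
    exact (sq_eq_sq₀ (norm_nonneg _) (norm_nonneg _)).mp h1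
  -- conjugates
  let P : G → H → H := fun g v => U g (T (U g⁻¹ v))
  have hPn : ∀ g v, ‖P g v‖ ≤ ‖T‖ * ‖v‖ := by
    intro g v
    show ‖U g (T (U g⁻¹ v))‖ ≤ _
    rw [hUn]
    refine (T.le_opNorm _).trans ?_
    rw [hUn]
  have hbd : ∀ v w : H, ∀ g, ‖(inner ℂ (P g v) w : ℂ)‖ ≤ ‖T‖ * ‖v‖ * ‖w‖ := by
    intro v w g
    refine (norm_inner_le_norm _ _).trans ?_
    exact mul_le_mul_of_nonneg_right (hPn g v) (norm_nonneg _)
  have hbd' : ∀ v w : H, ∃ C, ∀ g, ‖(inner ℂ (P g v) w : ℂ)‖ ≤ C := fun v w => ⟨_, hbd v w⟩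
  have hPadd : ∀ g v v', P g (v + v') = P g v + P g v' := by
    intro g v v'
    simp only [P, map_add]
  have hPsmul : ∀ g (c : ℂ) v, P g (c • v) = c • P g v := by
    intro g c v
    simp only [P, map_smul]
  let B0 : H →ₗ⋆[ℂ] H →ₗ[ℂ] ℂ := LinearMap.mk₂'ₛₗ (starRingEnd ℂ) (RingHom.id ℂ)
    (fun v w => M (fun g => inner ℂ (P g v) w))
    (by
      intro v v' w
      have : (fun g => (inner ℂ (P g (v + v')) w : ℂ)) =
          fun g => inner ℂ (P g v) w + inner ℂ (P g v') w := by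
        funext g
        rw [hPadd, inner_add_left]
      show M (fun g => inner ℂ (P g (v + v')) w) = _
      rw [this]
      exact hadd _ _ (hbd' v w) (hbd' v' w))
    (by
      intro c v w
      have : (fun g => (inner ℂ (P g (c • v)) w : ℂ)) =
          fun g => conj c * inner ℂ (P g v) w := by
        funext g
        rw [hPsmul, inner_smul_left]
      show M (fun g => inner ℂ (P g (c • v)) w) = _
      rw [this]
      exact hsmul _ _ (hbd' v w))
    (by
      intro v w w'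
      have : (fun g => (inner ℂ (P g v) (w + w') : ℂ)) =
          fun g => inner ℂ (P g v) w + inner ℂ (P g v) w' := by
        funext g
        rw [inner_add_right]
      show M (fun g => inner ℂ (P g v) (w + w')) = _
      rw [this]
      exact hadd _ _ (hbd' v w) (hbd' v w'))
    (by
      intro c v w
      have : (fun g => (inner ℂ (P g v) (c • w) : ℂ)) =
          fun g => c * inner ℂ (P g v) w := by
        funext g
        rw [inner_smul_right]
      show M (fun g => inner ℂ (P g v) (c • w)) = _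
      rw [this]
      exact hsmul _ _ (hbd' v w))
  have hB0 : ∀ v w, B0 v w = M (fun g => inner ℂ (P g v) w) := fun v w => rfl
  let B : H →L⋆[ℂ] H →L[ℂ] ℂ := LinearMap.mkContinuous₂ B0 ‖T‖ (by
    intro v w
    rw [hB0]
    exact hnorm _ _ (hbd v w))
  have hB : ∀ v w, B v w = M (fun g => inner ℂ (P g v) w) := fun v w => rfl
  let D : H →L[ℂ] H := InnerProductSpace.continuousLinearMapOfBilin B
  have hD : ∀ v w, inner ℂ (D v) w = M (fun g => inner ℂ (P g v) w) := by
    intro v w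
    rw [← hB]
    exact InnerProductSpace.continuousLinearMapOfBilin_apply B v w
  have hcomm : ∀ h, D * U h = U h * D := by
    intro h
    apply ContinuousLinearMap.ext
    intro v
    apply ext_inner_right ℂ
    intro w
    show inner ℂ (D (U h v)) w = inner ℂ (U h (D v)) w
    rw [hadj, hD, hD]
    have h1 := hinv h (fun g => inner ℂ (P g (U h v)) w) (hbd' _ _)
    rw [← h1]
    congr 1
    funext g
    show inner ℂ (U (h * g) (T (U (h * g)⁻¹ (U h v)))) w = inner ℂ (U g (T (U g⁻¹ v))) (U h⁻¹ w)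
    rw [← hadj]
    have h2 : U (h * g)⁻¹ (U h v) = U g⁻¹ v := by
      have : U (h * g)⁻¹ * U h = U g⁻¹ := by
        rw [← hUmul]
        congr 1
        group
      calc U (h * g)⁻¹ (U h v) = (U (h * g)⁻¹ * U h) v := rfl
        _ = _ := by rw [this]
    rw [h2, hUmul]
    rfl
  have hnm : ‖T - D‖ ≤ d := by
    apply ContinuousLinearMap.opNorm_le_bound _ hd0
    intro v
    have key : ∀ w, ‖(inner ℂ ((T - D) v) w : ℂ)‖ ≤ d * ‖v‖ * ‖w‖ := by
      intro w
      have e1 : (inner ℂ ((T - D) v) w : ℂ) = M (fun g => inner ℂ (T v) w + (-1) * inner ℂ (P g v) w) := by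
        rw [hadd (fun _ => inner ℂ (T v) w) (fun g => (-1) * inner ℂ (P g v) w)
          ⟨‖(inner ℂ (T v) w : ℂ)‖, fun _ => le_rfl⟩
          (by
            obtain ⟨C, hC⟩ := hbd' v w
            exact ⟨C, fun g => by rw [norm_mul, norm_neg, norm_one, one_mul]; exact hC g⟩),
          hconst, hsmul (-1) (fun g => inner ℂ (P g v) w) (hbd' v w), ← hD,
          ContinuousLinearMap.sub_apply, inner_sub_left]
        ring
      rw [e1]
      apply hnorm
      intro g
      have e2 : (inner ℂ (T v) w + (-1) * inner ℂ (P g v) w : ℂ) = inner ℂ (T v - P g v) w := by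
        rw [inner_sub_left]; ring
      rw [e2]
      refine (norm_inner_le_norm _ _).trans (mul_le_mul_of_nonneg_right ?_ (norm_nonneg _))
      have e3 : T v - P g v = -((U g * T - T * U g) (U g⁻¹ v)) := by
        rw [ContinuousLinearMap.sub_apply]
        show T v - U g (T (U g⁻¹ v)) = -(U g (T (U g⁻¹ v)) - T (U g (U g⁻¹ v)))
        rw [hUU]
        abel
      rw [e3, norm_neg]
      refine ((U g * T - T * U g).le_opNorm _).trans ?_
      rw [hUn]
      exact mul_le_mul_of_nonneg_right (hd g) (norm_nonneg _)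
    have h1 := key ((T - D) v)
    rw [inner_self_eq_norm_sq_to_K] at h1
    have h2 : ‖(T - D) v‖ * ‖(T - D) v‖ ≤ d * ‖v‖ * ‖(T - D) v‖ := by
      have : ‖((‖(T - D) v‖ : ℂ)) ^ 2‖ = ‖(T - D) v‖ * ‖(T - D) v‖ := by
        rw [norm_pow, Complex.norm_real, norm_norm, sq]
      rw [← this]
      exact h1
    rcases (norm_nonneg ((T - D) v)).eq_or_lt with h0 | h0
    · rw [← h0]
      positivity
    · exact le_of_mul_le_mul_right h2 h0
  rw [one_mul]
  refine (Metric.infDist_le_dist_of_mem (y := D) ?_).trans ?_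
  · exact hcomm
  · rw [dist_eq_norm]
    exact hnm

end J4953

end Pool.Agent.TH278.DX
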