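import Mathlib
set_option autoImplicit false

/-! Finner's inequality for marginals (job 1593). -/

namespace Pool.Agent.TH278.FN

open MeasureTheory Set
open scoped ENNReal

/-- a marginal does not depend on a coordinate on which the function does not depend -/
theorem finner_aux {n : ℕ} (f : (Fin n → ℝ) → ℝ≥0∞) (T s : Finset (Fin n)) (hd : DependsOn f T)
    (i : Fin n) (hi : i ∉ T) (x : Fin n → ℝ) (t : ℝ) :
    (∫⋯∫⁻_s, f ∂(fun _ => (volume : Measure ℝ))) (Function.update x i t) =
      (∫⋯∫⁻_s, f ∂(fun _ => (volume : Measure ℝ))) x := by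
  unfold lmarginal
  congr 1
  ext y
  apply hd
  intro k hk
  have hki : k ≠ i := by
    rintro rfl
    exact hi hk
  unfold Function.updateFinset
  split_ifs with h
  · rfl
  · rw [Function.update_of_ne hki]

theorem finner {n : ℕ} {ι : Type*} (P : Finset ι) (S : ι → Finset (Fin n)) (w : ι → ℝ)
    (f : ι → (Fin n → ℝ) → ℝ≥0∞) (hm : ∀ j ∈ P, Measurable (f j))
    (hd : ∀ j ∈ P, DependsOn (f j) (S j)) (hw : ∀ j ∈ P, 0 ≤ w j)
    (s : Finset (Fin n)) (hs : ∀ i ∈ s, ∑ j ∈ P with i ∈ S j, w j = 1) (x : Fin n → ℝ) :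
    (∫⋯∫⁻_s, (fun x => ∏ j ∈ P, f j x ^ w j) ∂(fun _ => (volume : Measure ℝ))) x ≤
      ∏ j ∈ P, ((∫⋯∫⁻_(s ∩ S j), f j ∂(fun _ => (volume : Measure ℝ))) x) ^ w j := by
  classical
  induction s using Finset.induction_on generalizing x with
  | empty => simp
  | insert i s hi ih =>
    have hs' : ∀ k ∈ s, ∑ j ∈ P with k ∈ S j, w j = 1 := fun k hk => hs k (Finset.mem_insert_of_mem hk)
    have hmeas : Measurable (fun x : Fin n → ℝ => ∏ j ∈ P, f j x ^ w j) :=
      Finset.measurable_fun_prod P fun j hj => (hm j hj).pow_const _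
    rw [lmarginal_insert _ hmeas hi]
    -- abbreviations
    set F : ι → ℝ → ℝ≥0∞ := fun j t =>
      (∫⋯∫⁻_(s ∩ S j), f j ∂(fun _ => (volume : Measure ℝ))) (Function.update x i t) with hF
    have hFm : ∀ j ∈ P, Measurable (F j) := fun j hj =>
      ((hm j hj).lmarginal _).comp (measurable_update x)
    have h1 : ∫⁻ t, (∫⋯∫⁻_s, (fun x => ∏ j ∈ P, f j x ^ w j) ∂(fun _ => (volume : Measure ℝ)))
        (Function.update x i t) ≤ ∫⁻ t, ∏ j ∈ P, F j t ^ w j :=
      lintegral_mono fun t => ih hs' (Function.update x i t)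
    refine h1.trans ?_
    -- split
    have h2 : ∀ t, ∏ j ∈ P, F j t ^ w j =
        (∏ j ∈ P with i ∉ S j, ((∫⋯∫⁻_((insert i s) ∩ S j), f j ∂(fun _ => (volume : Measure ℝ))) x) ^ w j) *
          ∏ j ∈ P with i ∈ S j, F j t ^ w j := by
      intro t
      rw [← Finset.prod_filter_mul_prod_filter_not P (fun j => i ∈ S j), mul_comm]
      congr 1
      apply Finset.prod_congr rfl
      intro j hj
      rw [Finset.mem_filter] at hj
      have e1 : (insert i s) ∩ S j = s ∩ S j := Finset.insert_inter_of_notMem hj.2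
      rw [e1]
      simp only [hF]
      rw [finner_aux (f j) (S j) (s ∩ S j) (hd j hj.1) i hj.2 x t]
    simp_rw [h2]
    rw [lintegral_const_mul _ (Finset.measurable_fun_prod _ fun j hj =>
      (hFm j (Finset.mem_filter.mp hj).1).pow_const _)]
    rw [← Finset.prod_filter_mul_prod_filter_not P (fun j => i ∈ S j)
      (fun j => ((∫⋯∫⁻_((insert i s) ∩ S j), f j ∂(fun _ => (volume : Measure ℝ))) x) ^ w j), mul_comm]
    refine mul_le_mul_left ?_ _
    have h3 := ENNReal.lintegral_prod_norm_pow_le (μ := (volume : Measure ℝ)) (P.filter fun j => i ∈ S j)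
      (f := F) (fun j hj => (hFm j (Finset.mem_filter.mp hj).1).aemeasurable)
      (p := w) (hs i (Finset.mem_insert_self i s)) (fun j hj => hw j (Finset.mem_filter.mp hj).1)
    refine h3.trans (le_of_eq ?_)
    apply Finset.prod_congr rfl
    intro j hj
    rw [Finset.mem_filter] at hj
    have e1 : (insert i s) ∩ S j = insert i (s ∩ S j) := Finset.insert_inter_of_mem hj.2
    rw [e1, lmarginal_insert _ (hm j hj.1) (fun h => hi (Finset.mem_inter.mp h).1)]

end Pool.Agent.TH278.FN
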