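import Mathlib
import Pool.Agent.TH280.BR.Stm
import Pool.Agent.H438R2.RZ.M1

/-!
Job BRM-TBP: interpolation between the exponents 2 and 4 for Bochner-Riesz means.
-/

set_option autoImplicit false

open MeasureTheory Set
open scoped ENNReal
open Pool.Agent.TH280.LS Pool.Agent.TH280.BR

namespace Pool.Agent.TH228.TBP

variable {m : ℕ}

/-! ### measurability and additivity -/

lemma meas_ft2 {G : (Fin m → ℝ) → ℝ × ℝ → ℂ} (hG : Measurable (Function.uncurry G)) :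
    Measurable (fun z : (Fin m → ℝ) × (ℝ × ℝ) => ft2 (G z.1) z.2) := by
  unfold ft2
  have h : StronglyMeasurable (fun w : ((Fin m → ℝ) × (ℝ × ℝ)) × (ℝ × ℝ) =>
      e (-(w.2.1 * w.1.2.1 + w.2.2 * w.1.2.2)) * G w.1.1 w.2) := by
    refine Measurable.stronglyMeasurable ?_
    refine (measurable_e.comp (by fun_prop)).mul ?_
    exact hG.comp (by fun_prop :
      Measurable fun w : ((Fin m → ℝ) × (ℝ × ℝ)) × (ℝ × ℝ) => (w.1.1, w.2))
  exact h.integral_prod_right'.measurable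

/-- the multiplier -/
noncomputable def K (δ v : ℝ) (ξ : ℝ × ℝ) : ℝ := (max (v - (ξ.1 ^ 2 + ξ.2 ^ 2)) 0) ^ δ

lemma meas_K (δ : ℝ) :
    Measurable (fun w : ((ℝ × ℝ) × (Fin m → ℝ)) × (ℝ × ℝ) =>
      (max ((1 - ∑ i, w.1.2 i ^ 2) - (w.2.1 ^ 2 + w.2.2 ^ 2)) 0) ^ δ) := by
  have h1 : Measurable (fun w : ((ℝ × ℝ) × (Fin m → ℝ)) × (ℝ × ℝ) =>
      (max ((1 - ∑ i, w.1.2 i ^ 2) - (w.2.1 ^ 2 + w.2.2 ^ 2)) 0)) := by fun_prop
  exact h1.pow_const δ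

lemma meas_UB {G : (Fin m → ℝ) → ℝ × ℝ → ℂ} (hG : Measurable (Function.uncurry G)) (δ : ℝ) :
    Measurable (fun w : (ℝ × ℝ) × (Fin m → ℝ) => UB δ (1 - ∑ i, w.2 i ^ 2) (G w.2) w.1) := by
  unfold UB
  have h5 : Measurable fun w : ((ℝ × ℝ) × (Fin m → ℝ)) × (ℝ × ℝ) => (w.1.2, w.2) := by
    fun_prop
  have h6' := (meas_ft2 hG).comp h5
  have h6 : Measurable (fun w : ((ℝ × ℝ) × (Fin m → ℝ)) × (ℝ × ℝ) => ft2 (G w.1.2) w.2) := h6'
  have h7 : Measurable (fun w : ((ℝ × ℝ) × (Fin m → ℝ)) × (ℝ × ℝ) =>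
      ((((max ((1 - ∑ i, w.1.2 i ^ 2) - (w.2.1 ^ 2 + w.2.2 ^ 2)) 0) ^ δ : ℝ) : ℂ))) :=
    Complex.measurable_ofReal.comp (meas_K δ)
  have h8 : Measurable (fun w : ((ℝ × ℝ) × (Fin m → ℝ)) × (ℝ × ℝ) =>
      e (w.1.1.1 * w.2.1 + w.1.1.2 * w.2.2)) := measurable_e.comp (by fun_prop)
  have h : StronglyMeasurable (fun w : ((ℝ × ℝ) × (Fin m → ℝ)) × (ℝ × ℝ) =>
      e (w.1.1.1 * w.2.1 + w.1.1.2 * w.2.2) *
        ((((max ((1 - ∑ i, w.1.2 i ^ 2) - (w.2.1 ^ 2 + w.2.2 ^ 2)) 0) ^ δ : ℝ) : ℂ) *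
          ft2 (G w.1.2) w.2)) := (h8.mul (h7.mul h6)).stronglyMeasurable
  exact h.integral_prod_right'.measurable

lemma meas_TB {G : (Fin m → ℝ) → ℝ × ℝ → ℂ} (hG : Measurable (Function.uncurry G)) (δ : ℝ) :
    Measurable (fun z : (ℝ × ℝ) × (Fin m → ℝ) => TB m δ G z.2 z.1) := by
  unfold TB
  have h : StronglyMeasurable (fun w : ((ℝ × ℝ) × (Fin m → ℝ)) × (Fin m → ℝ) =>
      e (∑ i, w.1.2 i * w.2 i) * UB δ (1 - ∑ i, w.2 i ^ 2) (G w.2) w.1.1) := by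
    refine Measurable.stronglyMeasurable ?_
    refine (measurable_e.comp (by fun_prop)).mul ?_
    have h5 : Measurable fun w : ((ℝ × ℝ) × (Fin m → ℝ)) × (Fin m → ℝ) => (w.1.1, w.2) := by
      fun_prop
    have h6 := (meas_UB hG δ).comp h5
    exact h6
  exact h.integral_prod_right'.measurable

lemma AdmB.int {G : (Fin m → ℝ) → ℝ × ℝ → ℂ} (h : AdmB m G) (η : Fin m → ℝ) :
    Integrable (G η) := by
  obtain ⟨hG, g, hg, hb⟩ := h
  refine hg.mono' ?_ (Filter.Eventually.of_forall fun x => hb η x)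
  exact (hG.comp (by fun_prop : Measurable fun x : ℝ × ℝ => (η, x))).aestronglyMeasurable

lemma meas_ft2' {g : ℝ × ℝ → ℂ} (hg : Measurable g) : Measurable (ft2 g) := by
  unfold ft2
  have h : StronglyMeasurable (fun w : (ℝ × ℝ) × (ℝ × ℝ) =>
      e (-(w.2.1 * w.1.1 + w.2.2 * w.1.2)) * g w.2) := by
    refine Measurable.stronglyMeasurable ?_
    refine (measurable_e.comp (by fun_prop)).mul ?_
    exact hg.comp (by fun_prop : Measurable fun w : (ℝ × ℝ) × (ℝ × ℝ) => w.2)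
  exact h.integral_prod_right'.measurable

lemma norm_ft2_le (g : ℝ × ℝ → ℂ) (ξ : ℝ × ℝ) : ‖ft2 g ξ‖ ≤ ∫ x, ‖g x‖ := by
  unfold ft2
  refine (norm_integral_le_integral_norm _).trans (le_of_eq ?_)
  refine integral_congr_ae (Filter.Eventually.of_forall fun x => ?_)
  simp only [norm_mul, norm_e, one_mul]

/-- the box containing the support of the multiplier -/
def BX : Set (ℝ × ℝ) := Icc (-1) 1 ×ˢ Icc (-1) 1

lemma vol_BX : (volume : Measure (ℝ × ℝ)) BX < ⊤ := by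
  unfold BX
  exact (isCompact_Icc.prod isCompact_Icc).measure_lt_top

lemma meas_BX : MeasurableSet BX := measurableSet_Icc.prod measurableSet_Icc

lemma K_le {δ v : ℝ} (hδ : 0 < δ) (hv : v ≤ 1) (ξ : ℝ × ℝ) :
    |(max (v - (ξ.1 ^ 2 + ξ.2 ^ 2)) 0) ^ δ| ≤ BX.indicator (fun _ => (1 : ℝ)) ξ := by
  by_cases h : 0 < v - (ξ.1 ^ 2 + ξ.2 ^ 2)
  · have hm : ξ ∈ BX := by
      refine ⟨?_, ?_⟩
      · rw [mem_Icc, ← abs_le, ← sq_le_one_iff_abs_le_one]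
        nlinarith [sq_nonneg ξ.1, sq_nonneg ξ.2]
      · rw [mem_Icc, ← abs_le, ← sq_le_one_iff_abs_le_one]
        nlinarith [sq_nonneg ξ.1, sq_nonneg ξ.2]
    rw [indicator_of_mem hm, max_eq_left h.le, abs_of_nonneg (Real.rpow_nonneg h.le _)]
    refine Real.rpow_le_one h.le ?_ hδ.le
    nlinarith [sq_nonneg ξ.1, sq_nonneg ξ.2]
  · rw [max_eq_right (not_lt.1 h), Real.zero_rpow hδ.ne', abs_zero]
    exact indicator_nonneg (fun _ _ => zero_le_one) _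

lemma int_UB {δ v : ℝ} (hδ : 0 < δ) (hv : v ≤ 1) {g : ℝ × ℝ → ℂ} (hg : Measurable g)
    (z : ℝ × ℝ) : Integrable (fun ξ : ℝ × ℝ => e (z.1 * ξ.1 + z.2 * ξ.2) *
      ((((max (v - (ξ.1 ^ 2 + ξ.2 ^ 2)) 0) ^ δ : ℝ) : ℂ) * ft2 g ξ)) := by
  have hI : Integrable (fun ξ : ℝ × ℝ => BX.indicator (fun _ => (1 : ℝ)) ξ * ∫ x, ‖g x‖) := by
    refine Integrable.mul_const ?_ _
    exact (integrable_indicator_iff meas_BX).2 (integrableOn_const vol_BX.ne)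
  refine hI.mono' ?_ (Filter.Eventually.of_forall fun ξ => ?_)
  · refine Measurable.aestronglyMeasurable ?_
    refine (measurable_e.comp (by fun_prop)).mul (Measurable.mul ?_ (meas_ft2' hg))
    refine Complex.measurable_ofReal.comp ?_
    fun_prop
  · rw [norm_mul, norm_e, one_mul, norm_mul, Complex.norm_real, Real.norm_eq_abs]
    exact mul_le_mul (K_le hδ hv ξ) (norm_ft2_le g ξ) (norm_nonneg _)
      (indicator_nonneg (fun _ _ => zero_le_one) _)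

lemma UB_bound {δ v : ℝ} (hδ : 0 < δ) (hv : v ≤ 1) (g : ℝ × ℝ → ℂ) (z : ℝ × ℝ) :
    ‖UB δ v g z‖ ≤ (∫ ξ : ℝ × ℝ, BX.indicator (fun _ => (1 : ℝ)) ξ) * ∫ x, ‖g x‖ := by
  unfold UB
  have hI : Integrable (fun ξ : ℝ × ℝ => BX.indicator (fun _ => (1 : ℝ)) ξ * ∫ x, ‖g x‖) := by
    refine Integrable.mul_const ?_ _
    exact (integrable_indicator_iff meas_BX).2 (integrableOn_const vol_BX.ne)
  refine (norm_integral_le_of_norm_le hI (Filter.Eventually.of_forall fun ξ => ?_)).trans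
    (le_of_eq (integral_mul_const _ _))
  rw [norm_mul, norm_e, one_mul, norm_mul, Complex.norm_real, Real.norm_eq_abs]
  exact mul_le_mul (K_le hδ hv ξ) (norm_ft2_le g ξ) (norm_nonneg _)
      (indicator_nonneg (fun _ _ => zero_le_one) _)

lemma UB_zero {δ v : ℝ} (hδ : 0 < δ) (hv : v ≤ 0) (g : ℝ × ℝ → ℂ) (z : ℝ × ℝ) :
    UB δ v g z = 0 := by
  unfold UB
  have h : ∀ ξ : ℝ × ℝ, e (z.1 * ξ.1 + z.2 * ξ.2) *
      ((((max (v - (ξ.1 ^ 2 + ξ.2 ^ 2)) 0) ^ δ : ℝ) : ℂ) * ft2 g ξ) = 0 := by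
    intro ξ
    rw [max_eq_right (by nlinarith [sq_nonneg ξ.1, sq_nonneg ξ.2]), Real.zero_rpow hδ.ne']
    simp
  simp only [h, integral_zero]

lemma int_TB {δ : ℝ} (hδ : 0 < δ) {G : (Fin m → ℝ) → ℝ × ℝ → ℂ} (hG : AdmB m G)
    (y : Fin m → ℝ) (z : ℝ × ℝ) :
    Integrable (fun η : Fin m → ℝ =>
      e (∑ i, y i * η i) * UB δ (1 - ∑ i, η i ^ 2) (G η) z) := by
  obtain ⟨hGm, g, hg, hgb⟩ := id hG
  set B : ℝ := (∫ ξ : ℝ × ℝ, BX.indicator (fun _ => (1 : ℝ)) ξ) * ∫ x, g x with hB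
  have hB0 : 0 ≤ ∫ ξ : ℝ × ℝ, BX.indicator (fun _ => (1 : ℝ)) ξ :=
    integral_nonneg fun ξ => indicator_nonneg (fun _ _ => zero_le_one) _
  have hI : Integrable (fun η : Fin m → ℝ => (Icc (-1 : Fin m → ℝ) 1).indicator (fun _ => B) η) := by
    exact (integrable_indicator_iff measurableSet_Icc).2
      (integrableOn_const isCompact_Icc.measure_lt_top.ne)
  refine hI.mono' ?_ (Filter.Eventually.of_forall fun η => ?_)
  · refine Measurable.aestronglyMeasurable ?_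
    refine (measurable_e.comp (by fun_prop)).mul ?_
    have h5 : Measurable fun η : Fin m → ℝ => (z, η) := by fun_prop
    have h6 := (meas_UB hGm δ).comp h5
    exact h6
  · rw [norm_mul, norm_e, one_mul]
    by_cases h : η ∈ Icc (-1 : Fin m → ℝ) 1
    · rw [indicator_of_mem h]
      refine (UB_bound hδ ?_ _ _).trans ?_
      · have : 0 ≤ ∑ i, η i ^ 2 := Finset.sum_nonneg fun i _ => sq_nonneg _
        linarith
      · rw [hB]
        refine mul_le_mul_of_nonneg_left ?_ hB0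
        exact integral_mono (AdmB.int hG η).norm hg (fun z => hgb η z)
    · rw [indicator_of_notMem h, UB_zero hδ, norm_zero]
      by_contra hc
      apply h
      have hc' : ∑ i, η i ^ 2 ≤ 1 := by linarith [not_le.1 hc]
      have h1 : ∀ i, |η i| ≤ 1 := by
        intro i
        rw [← sq_le_one_iff_abs_le_one]
        exact (Finset.single_le_sum (f := fun i => η i ^ 2) (fun i _ => sq_nonneg (η i))
          (Finset.mem_univ i)).trans hc'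
      exact ⟨fun i => (abs_le.1 (h1 i)).1, fun i => (abs_le.1 (h1 i)).2⟩

lemma TB_add {δ : ℝ} (hδ : 0 < δ) {G G1 G2 : (Fin m → ℝ) → ℝ × ℝ → ℂ} (h1 : AdmB m G1)
    (h2 : AdmB m G2) (h : ∀ η x, G η x = G1 η x + G2 η x) (y : Fin m → ℝ) (z : ℝ × ℝ) :
    TB m δ G y z = TB m δ G1 y z + TB m δ G2 y z := by
  have hft : ∀ η ξ, ft2 (G η) ξ = ft2 (G1 η) ξ + ft2 (G2 η) ξ := by
    intro η ξ
    unfold ft2
    have hi : ∀ {G0 : ℝ × ℝ → ℂ}, Integrable G0 →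
        Integrable (fun z : ℝ × ℝ => e (-(z.1 * ξ.1 + z.2 * ξ.2)) * G0 z) := by
      intro G0 hG0
      refine hG0.bdd_mul (c := 1) ?_ ?_
      · exact (measurable_e.comp (by fun_prop)).aestronglyMeasurable
      · exact Filter.Eventually.of_forall fun z => (norm_e _).le
    rw [← integral_add (hi (AdmB.int h1 η)) (hi (AdmB.int h2 η))]
    refine integral_congr_ae (Filter.Eventually.of_forall fun z => ?_)
    simp only
    rw [h]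
    ring
  have hm : ∀ {G0 : (Fin m → ℝ) → ℝ × ℝ → ℂ}, AdmB m G0 → ∀ η, Measurable (G0 η) := by
    intro G0 h0 η
    exact h0.1.comp (by fun_prop : Measurable fun x : ℝ × ℝ => (η, x))
  have hv : ∀ η : Fin m → ℝ, 1 - ∑ i, η i ^ 2 ≤ 1 := by
    intro η
    have : 0 ≤ ∑ i, η i ^ 2 := Finset.sum_nonneg fun i _ => sq_nonneg _
    linarith
  have hU : ∀ η : Fin m → ℝ, UB δ (1 - ∑ i, η i ^ 2) (G η) z =
      UB δ (1 - ∑ i, η i ^ 2) (G1 η) z + UB δ (1 - ∑ i, η i ^ 2) (G2 η) z := by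
    intro η
    unfold UB
    rw [← integral_add (int_UB hδ (hv η) (hm h1 η) _) (int_UB hδ (hv η) (hm h2 η) _)]
    refine integral_congr_ae (Filter.Eventually.of_forall fun ξ => ?_)
    simp only
    rw [hft]
    ring
  unfold TB
  rw [← integral_add (int_TB hδ h1 y z) (int_TB hδ h2 y z)]
  refine integral_congr_ae (Filter.Eventually.of_forall fun η => ?_)
  simp only
  rw [hU]
  ring

/-! ### truncations -/

/-- large part -/
noncomputable def tr1 (ρ : (Fin m → ℝ) → ℝ) (G : (Fin m → ℝ) → ℝ × ℝ → ℂ) (l : ℝ)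
    (η : Fin m → ℝ) (x : ℝ × ℝ) : ℂ :=
  if l < ρ η * ‖G η x‖ then G η x else 0

/-- small part -/
noncomputable def tr2 (ρ : (Fin m → ℝ) → ℝ) (G : (Fin m → ℝ) → ℝ × ℝ → ℂ) (l : ℝ)
    (η : Fin m → ℝ) (x : ℝ × ℝ) : ℂ :=
  if ρ η * ‖G η x‖ ≤ l then G η x else 0

lemma tr_add (ρ : (Fin m → ℝ) → ℝ) (G : (Fin m → ℝ) → ℝ × ℝ → ℂ) (l : ℝ) (η : Fin m → ℝ)
    (x : ℝ × ℝ) : G η x = tr1 ρ G l η x + tr2 ρ G l η x := by
  unfold tr1 tr2
  by_cases h : l < ρ η * ‖G η x‖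
  · rw [if_pos h, if_neg (not_le.2 h), add_zero]
  · rw [if_neg h, if_pos (not_lt.1 h), zero_add]

lemma meas_f {ρ : (Fin m → ℝ) → ℝ} (hρ : Measurable ρ) {G : (Fin m → ℝ) → ℝ × ℝ → ℂ}
    (hG : Measurable (Function.uncurry G)) :
    Measurable (fun z : (Fin m → ℝ) × (ℝ × ℝ) => ρ z.1 * ‖G z.1 z.2‖) :=
  (hρ.comp measurable_fst).mul hG.norm

lemma adm1 {ρ : (Fin m → ℝ) → ℝ} (hρ : Measurable ρ) {G : (Fin m → ℝ) → ℝ × ℝ → ℂ}
    (hG : AdmB m G) (l : ℝ) : AdmB m (tr1 ρ G l) := by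
  obtain ⟨hGm, g, hg, hb⟩ := hG
  refine ⟨?_, g, hg, fun η x => ?_⟩
  · have h1 : MeasurableSet {z : (Fin m → ℝ) × (ℝ × ℝ) | l < ρ z.1 * ‖G z.1 z.2‖} :=
      measurableSet_lt measurable_const (meas_f hρ hGm)
    have h2 : Measurable (fun z : (Fin m → ℝ) × (ℝ × ℝ) =>
        if l < ρ z.1 * ‖G z.1 z.2‖ then Function.uncurry G z else 0) :=
      Measurable.ite h1 hGm measurable_const
    exact h2
  · unfold tr1
    split_ifs
    · exact hb η x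
    · rw [norm_zero]
      exact (norm_nonneg _).trans (hb η x)

lemma adm2 {ρ : (Fin m → ℝ) → ℝ} (hρ : Measurable ρ) {G : (Fin m → ℝ) → ℝ × ℝ → ℂ}
    (hG : AdmB m G) (l : ℝ) : AdmB m (tr2 ρ G l) := by
  obtain ⟨hGm, g, hg, hb⟩ := hG
  refine ⟨?_, g, hg, fun η x => ?_⟩
  · have h1 : MeasurableSet {z : (Fin m → ℝ) × (ℝ × ℝ) | ρ z.1 * ‖G z.1 z.2‖ ≤ l} :=
      measurableSet_le (meas_f hρ hGm) measurable_const
    have h2 : Measurable (fun z : (Fin m → ℝ) × (ℝ × ℝ) =>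
        if ρ z.1 * ‖G z.1 z.2‖ ≤ l then Function.uncurry G z else 0) :=
      Measurable.ite h1 hGm measurable_const
    exact h2
  · unfold tr2
    split_ifs
    · exact hb η x
    · rw [norm_zero]
      exact (norm_nonneg _).trans (hb η x)

/-- the weight -/
noncomputable def ww (ρ : (Fin m → ℝ) → ℝ) (z : (Fin m → ℝ) × (ℝ × ℝ)) : ℝ≥0∞ :=
  ENNReal.ofReal ((ρ z.1)⁻¹ ^ 2)

lemma measurable_ww {ρ : (Fin m → ℝ) → ℝ} (hρ : Measurable ρ) : Measurable (ww ρ) := by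
  unfold ww
  exact (((hρ.comp measurable_fst).inv).pow_const 2).ennreal_ofReal

/-- the measure on the data side -/
noncomputable def mu (ρ : (Fin m → ℝ) → ℝ) : Measure ((Fin m → ℝ) × (ℝ × ℝ)) :=
  ((volume : Measure (Fin m → ℝ)).prod (volume : Measure (ℝ × ℝ))).withDensity (ww ρ)

instance (ρ : (Fin m → ℝ) → ℝ) : SFinite (mu ρ) := by unfold mu; infer_instance

lemma lint_mu {ρ : (Fin m → ℝ) → ℝ} (hρ : Measurable ρ) (f : (Fin m → ℝ) × (ℝ × ℝ) → ℝ≥0∞)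
    (hf : Measurable f) :
    ∫⁻ z, f z ∂(mu ρ) = ∫⁻ x : ℝ × ℝ, ∫⁻ η : Fin m → ℝ, ww ρ (η, x) * f (η, x) := by
  unfold mu
  rw [lintegral_withDensity_eq_lintegral_mul _ (measurable_ww hρ) hf]
  rw [lintegral_prod_symm' _ ((measurable_ww hρ).mul hf)]
  rfl

lemma pt1 {ρ : (Fin m → ℝ) → ℝ} (hρ0 : ∀ η, 0 ≤ ρ η) (G : (Fin m → ℝ) → ℝ × ℝ → ℂ) {l : ℝ}
    (hl : 0 < l) (η : Fin m → ℝ) (x : ℝ × ℝ) :
    ww ρ (η, x) * {z : (Fin m → ℝ) × (ℝ × ℝ) | l < ρ z.1 * ‖G z.1 z.2‖}.indicator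
      (fun z => ENNReal.ofReal (ρ z.1 * ‖G z.1 z.2‖) ^ 2) (η, x) = ‖tr1 ρ G l η x‖ₑ ^ 2 := by
  by_cases h : l < ρ η * ‖G η x‖
  · rw [indicator_of_mem (show (η, x) ∈ {z : (Fin m → ℝ) × (ℝ × ℝ) |
      l < ρ z.1 * ‖G z.1 z.2‖} from h)]
    unfold tr1 ww
    rw [if_pos h, ← ofReal_norm, ← ENNReal.ofReal_pow (mul_nonneg (hρ0 _) (norm_nonneg _)),
      ← ENNReal.ofReal_pow (norm_nonneg _), ← ENNReal.ofReal_mul (by positivity)]
    have hP : ρ η ≠ 0 := by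
      intro h0
      rw [h0, zero_mul] at h
      exact absurd (hl.trans h) (lt_irrefl _)
    congr 1
    simp only
    field_simp
  · rw [indicator_of_notMem (show (η, x) ∉ {z : (Fin m → ℝ) × (ℝ × ℝ) |
      l < ρ z.1 * ‖G z.1 z.2‖} from h)]
    unfold tr1
    rw [if_neg h]
    simp

lemma pt2 {ρ : (Fin m → ℝ) → ℝ} (hρ0 : ∀ η, 0 ≤ ρ η) (G : (Fin m → ℝ) → ℝ × ℝ → ℂ) (l : ℝ)
    (η : Fin m → ℝ) (x : ℝ × ℝ) :
    ww ρ (η, x) * {z : (Fin m → ℝ) × (ℝ × ℝ) | ρ z.1 * ‖G z.1 z.2‖ ≤ l}.indicator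
      (fun z => ENNReal.ofReal (ρ z.1 * ‖G z.1 z.2‖) ^ 4) (η, x) =
      ENNReal.ofReal (ρ η ^ 2) * ‖tr2 ρ G l η x‖ₑ ^ 4 := by
  by_cases h : ρ η * ‖G η x‖ ≤ l
  · rw [indicator_of_mem (show (η, x) ∈ {z : (Fin m → ℝ) × (ℝ × ℝ) |
      ρ z.1 * ‖G z.1 z.2‖ ≤ l} from h)]
    unfold tr2 ww
    rw [if_pos h, ← ofReal_norm, ← ENNReal.ofReal_pow (mul_nonneg (hρ0 _) (norm_nonneg _)),
      ← ENNReal.ofReal_pow (norm_nonneg _), ← ENNReal.ofReal_mul (by positivity),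
      ← ENNReal.ofReal_mul (by positivity)]
    congr 1
    simp only
    by_cases hP : ρ η = 0
    · rw [hP]; simp
    · field_simp
  · rw [indicator_of_notMem (show (η, x) ∉ {z : (Fin m → ℝ) × (ℝ × ℝ) |
      ρ z.1 * ‖G z.1 z.2‖ ≤ l} from h)]
    unfold tr2
    rw [if_neg h]
    simp

lemma pt3 {ρ : (Fin m → ℝ) → ℝ} (hρ0 : ∀ η, 0 ≤ ρ η) (G : (Fin m → ℝ) → ℝ × ℝ → ℂ) {p : ℝ}
    (hp : 2 < p) (η : Fin m → ℝ) (x : ℝ × ℝ) :
    ww ρ (η, x) * ENNReal.ofReal (ρ η * ‖G η x‖) ^ p =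
      ENNReal.ofReal (ρ η ^ (p - 2)) * ‖G η x‖ₑ ^ p := by
  unfold ww
  rw [← ofReal_norm, ENNReal.ofReal_rpow_of_nonneg (mul_nonneg (hρ0 _) (norm_nonneg _))
    (by linarith), ENNReal.ofReal_rpow_of_nonneg (norm_nonneg _) (by linarith),
    ← ENNReal.ofReal_mul (by positivity),
    ← ENNReal.ofReal_mul (Real.rpow_nonneg (hρ0 _) _)]
  congr 1
  simp only
  by_cases hP : ρ η = 0
  · rw [hP, Real.zero_rpow (by linarith)]; simp
  · have hP' : 0 < ρ η := lt_of_le_of_ne (hρ0 _) (Ne.symm hP)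
    rw [Real.mul_rpow hP'.le (norm_nonneg _), Real.rpow_sub hP', Real.rpow_two]
    field_simp

/-- the measure on the other side -/
noncomputable def nu (m : ℕ) : Measure ((ℝ × ℝ) × (Fin m → ℝ)) :=
  (volume : Measure (ℝ × ℝ)).prod (volume : Measure (Fin m → ℝ))

lemma lint_nu (f : (ℝ × ℝ) × (Fin m → ℝ) → ℝ≥0∞) (hf : Measurable f) :
    ∫⁻ z, f z ∂(nu m) = ∫⁻ x : ℝ × ℝ, ∫⁻ y : Fin m → ℝ, f (x, y) := by
  unfold nu
  exact lintegral_prod _ hf.aemeasurable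

theorem interp (p : ℝ) (hp2 : 2 < p) (hp4 : p < 4) : ∃ C : ℝ, 0 < C ∧ ∀ (m : ℕ) (δ : ℝ)
    (ρ : (Fin m → ℝ) → ℝ), 0 < δ → Measurable ρ → (∀ η, 0 ≤ ρ η) → ∀ (C2 C4 : ℝ),
    0 < C2 → 0 < C4 →
    (∀ G : (Fin m → ℝ) → ℝ × ℝ → ℂ, AdmB m G →
      ∫⁻ x : ℝ × ℝ, ∫⁻ y : Fin m → ℝ, ‖TB m δ G y x‖ₑ ^ 2 ≤
        ENNReal.ofReal C2 * ∫⁻ x : ℝ × ℝ, ∫⁻ η : Fin m → ℝ, ‖G η x‖ₑ ^ 2) →
    (∀ G : (Fin m → ℝ) → ℝ × ℝ → ℂ, AdmB m G →
      ∫⁻ x : ℝ × ℝ, ∫⁻ y : Fin m → ℝ, ‖TB m δ G y x‖ₑ ^ 4 ≤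
        ENNReal.ofReal C4 * ∫⁻ x : ℝ × ℝ, ∫⁻ η : Fin m → ℝ,
          ENNReal.ofReal (ρ η ^ 2) * ‖G η x‖ₑ ^ 4) →
    ∀ G : (Fin m → ℝ) → ℝ × ℝ → ℂ, AdmB m G →
      ∫⁻ x : ℝ × ℝ, ∫⁻ y : Fin m → ℝ, ‖TB m δ G y x‖ₑ ^ p ≤
        ENNReal.ofReal (C * C2 ^ ((4 - p) / 2) * C4 ^ ((p - 2) / 2)) *
          ∫⁻ x : ℝ × ℝ, ∫⁻ η : Fin m → ℝ,
            ENNReal.ofReal (ρ η ^ (p - 2)) * ‖G η x‖ₑ ^ p := by
  obtain ⟨C, hC, HC⟩ := Pool.Agent.H438R2.RZ.marc24 p hp2 hp4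
  refine ⟨C, hC, ?_⟩
  intro m δ ρ hδ hρ hρ0 C2 C4 hC2 hC4 H2 H4 G hG
  have hGm := hG.1
  have hF := (meas_TB hGm δ)
  have key := HC (mu ρ) (nu m) (fun z => ‖TB m δ G z.2 z.1‖)
    (fun z => ρ z.1 * ‖G z.1 z.2‖) hF.norm (meas_f hρ hGm) (fun _ => norm_nonneg _)
    (fun _ => mul_nonneg (hρ0 _) (norm_nonneg _)) C2 C4 hC2 hC4 ?_
  · rw [lint_mu hρ _ ((meas_f hρ hGm).ennreal_ofReal.pow_const p),
      lint_nu _ (hF.norm.ennreal_ofReal.pow_const p)] at key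
    simp only [ofReal_norm, pt3 hρ0 G hp2] at key
    exact key
  · intro l hl
    refine ⟨fun z => ‖TB m δ (tr1 ρ G l) z.2 z.1‖ₑ,
      fun z => ‖TB m δ (tr2 ρ G l) z.2 z.1‖ₑ,
      (meas_TB (adm1 hρ hG l).1 δ).enorm, (meas_TB (adm2 hρ hG l).1 δ).enorm,
      Filter.Eventually.of_forall fun z => ?_, ?_, ?_⟩
    · rw [ofReal_norm]
      rw [TB_add hδ (adm1 hρ hG l) (adm2 hρ hG l) (tr_add ρ G l)]
      exact enorm_add_le _ _
    · rw [lint_nu _ ((meas_TB (adm1 hρ hG l).1 δ).enorm.pow_const 2)]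
      refine (H2 _ (adm1 hρ hG l)).trans (le_of_eq ?_)
      congr 1
      have hs : MeasurableSet {z : (Fin m → ℝ) × (ℝ × ℝ) | l < ρ z.1 * ‖G z.1 z.2‖} :=
        measurableSet_lt measurable_const (meas_f hρ hGm)
      rw [← lintegral_indicator hs,
        lint_mu hρ _ (((meas_f hρ hGm).ennreal_ofReal.pow_const 2).indicator hs)]
      refine lintegral_congr fun x => lintegral_congr fun η => ?_
      rw [pt1 hρ0 G hl]
    · rw [lint_nu _ ((meas_TB (adm2 hρ hG l).1 δ).enorm.pow_const 4)]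
      refine (H4 _ (adm2 hρ hG l)).trans (le_of_eq ?_)
      congr 1
      have hs : MeasurableSet {z : (Fin m → ℝ) × (ℝ × ℝ) | ρ z.1 * ‖G z.1 z.2‖ ≤ l} :=
        measurableSet_le (meas_f hρ hGm) measurable_const
      rw [← lintegral_indicator hs,
        lint_mu hρ _ (((meas_f hρ hGm).ennreal_ofReal.pow_const 4).indicator hs)]
      refine lintegral_congr fun x => lintegral_congr fun η => ?_
      rw [pt2 hρ0 G l]

theorem tbp_thm : S_TB2 → S_TB4 → S_TBP := by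
  intro H2 H4 m ρ δ p hρ hρ0 _ hE hδ hp2 hp4
  obtain ⟨C2, hC2, K2⟩ := H2 m δ hδ
  obtain ⟨C4, hC4, K4⟩ := H4 m ρ δ hρ hρ0 hE hδ
  rcases hp2.eq_or_lt with h | h
  · subst h
    refine ⟨C2, hC2, fun G hG => ?_⟩
    have h3 := K2 G hG
    simp only [sub_self, Real.rpow_zero, ENNReal.ofReal_one, one_mul, ENNReal.rpow_ofNat]
    exact h3
  · rcases hp4.eq_or_lt with h' | h'
    · subst h'
      refine ⟨C4, hC4, fun G hG => ?_⟩
      have h3 := K4 G hG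
      have e1 : (4 : ℝ) - 2 = 2 := by norm_num
      simp only [e1, Real.rpow_two, ENNReal.rpow_ofNat]
      exact h3
    · obtain ⟨C, hC, HC⟩ := interp p h h'
      refine ⟨C * C2 ^ ((4 - p) / 2) * C4 ^ ((p - 2) / 2), by positivity, fun G hG => ?_⟩
      exact HC m δ ρ hδ hρ hρ0 C2 C4 hC2 hC4 K2 K4 G hG

end Pool.Agent.TH228.TBP
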