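import Pool.Agent.TH280.LS.Stm

set_option autoImplicit false

/-! # LS-T4: the `L^4` bound in several variables -/

open MeasureTheory Set
open scoped ENNReal

namespace Pool.Agent.TH228.T4

open Pool.Agent.TH280.LS

/-- joint measurability of the partial Fourier transforms -/
theorem ft_meas {m : ℕ} {G : (Fin m → ℝ) → ℝ → ℂ} (hG : Measurable (Function.uncurry G)) :
    StronglyMeasurable (fun p : (Fin m → ℝ) × ℝ => ft (G p.1) p.2) := by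
  unfold ft
  refine StronglyMeasurable.integral_prod_right'
    (f := fun q : ((Fin m → ℝ) × ℝ) × ℝ => e (-(q.2 * q.1.2)) * G q.1.1 q.2) ?_
  refine Measurable.stronglyMeasurable ?_
  refine Measurable.mul ?_ ?_
  · exact measurable_e.comp (by fun_prop)
  · exact hG.comp (by fun_prop : Measurable fun q : ((Fin m → ℝ) × ℝ) × ℝ => (q.1.1, q.2))

theorem ra_meas {m : ℕ} : Measurable
    (fun q : (ℝ × ℝ × (Fin m → ℝ)) × ℝ => ra (Real.sqrt (∑ i, q.1.2.2 i ^ 2)) q.2) := by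
  unfold ra
  fun_prop

/-- joint measurability of the one dimensional operators -/
theorem H_meas {m : ℕ} {G : (Fin m → ℝ) → ℝ → ℂ} (hG : Measurable (Function.uncurry G))
    {M : ℝ → ℝ → ℝ} (hM : Measurable (Function.uncurry M)) :
    StronglyMeasurable (fun p : ℝ × ℝ × (Fin m → ℝ) =>
      Ux (Real.sqrt (∑ i, p.2.2 i ^ 2)) (M p.1) (G p.2.2) p.2.1) := by
  unfold Ux
  obtain ⟨F, hF⟩ : ∃ F : (Fin m → ℝ) → ℝ → ℂ, ∀ η ξ, F η ξ = ft (G η) ξ := ⟨_, fun _ _ => rfl⟩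
  have hFm : Measurable (fun p : (Fin m → ℝ) × ℝ => F p.1 p.2) := by
    have h := (ft_meas hG).measurable
    simp only [← hF] at h
    exact h
  simp only [← hF]
  refine StronglyMeasurable.integral_prod_right'
    (f := fun q : (ℝ × ℝ × (Fin m → ℝ)) × ℝ => e (q.1.2.1 * q.2) *
      (((M q.1.1 (ra (Real.sqrt (∑ i, q.1.2.2 i ^ 2)) q.2) : ℝ) : ℂ) * F q.1.2.2 q.2)) ?_
  refine Measurable.stronglyMeasurable ?_
  refine Measurable.mul ?_ (Measurable.mul ?_ ?_)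
  · exact measurable_e.comp (by fun_prop)
  · refine Complex.measurable_ofReal.comp ?_
    exact hM.comp ((by fun_prop : Measurable fun q : (ℝ × ℝ × (Fin m → ℝ)) × ℝ => q.1.1).prodMk
      ra_meas)
  · exact hFm.comp
      (by fun_prop : Measurable fun q : (ℝ × ℝ × (Fin m → ℝ)) × ℝ => (q.1.2.2, q.2))

/-- the Gaussian in several variables is integrable -/
theorem gauss_int {m : ℕ} {κ : ℝ} (hκ : 0 < κ) :
    Integrable (fun η : Fin m → ℝ => Real.exp (-(κ * ∑ i, η i ^ 2))) := by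
  have h := Integrable.fintype_prod (ι := Fin m) (E := ℝ)
    (f := fun _ : Fin m => fun x : ℝ => Real.exp (-κ * x ^ 2)) (μ := fun _ => volume)
    (fun _ => integrable_exp_neg_mul_sq hκ)
  rw [← volume_pi] at h
  refine h.congr (Filter.Eventually.of_forall fun η => ?_)
  show ∏ i, Real.exp (-κ * η i ^ 2) = _
  rw [← Real.exp_sum, ← Finset.mul_sum]
  ring_nf

/-- the bound of the one dimensional operators -/
theorem H_bound {m : ℕ} {G : (Fin m → ℝ) → ℝ → ℂ} {g : ℝ → ℝ} (hg : Integrable g)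
    (hGg : ∀ η x, ‖G η x‖ ≤ g x) {M : ℝ → ℝ} {K κ : ℝ} (hκ : 0 < κ)
    (hM : ∀ r, |M r| ≤ K * Real.exp (-(κ * r ^ 2))) (x : ℝ) (η : Fin m → ℝ) :
    ‖Ux (Real.sqrt (∑ i, η i ^ 2)) M (G η) x‖ ≤
      (K * (∫ z, g z) * ∫ ξ : ℝ, Real.exp (-κ * ξ ^ 2)) * Real.exp (-(κ * ∑ i, η i ^ 2)) := by
  have hS : 0 ≤ ∑ i, η i ^ 2 := Finset.sum_nonneg fun i _ => sq_nonneg _
  have hK : 0 ≤ K := by
    have h1 := le_trans (abs_nonneg _) (hM 0)
    exact nonneg_of_mul_nonneg_left h1 (Real.exp_pos _)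
  have hA : ∀ ξ, ‖ft (G η) ξ‖ ≤ ∫ z, g z := by
    intro ξ
    unfold ft
    refine norm_integral_le_of_norm_le hg (Filter.Eventually.of_forall fun z => ?_)
    rw [norm_mul, norm_e, one_mul]
    exact hGg η z
  have hA0 : 0 ≤ ∫ z, g z := le_trans (norm_nonneg _) (hA 0)
  unfold Ux
  have hint : Integrable (fun ξ : ℝ => (K * (∫ z, g z) * Real.exp (-(κ * ∑ i, η i ^ 2))) *
      Real.exp (-κ * ξ ^ 2)) := (integrable_exp_neg_mul_sq hκ).const_mul _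
  have hle := norm_integral_le_of_norm_le (f := fun ξ : ℝ => e (x * ξ) *
    (((M (ra (Real.sqrt (∑ i, η i ^ 2)) ξ) : ℝ) : ℂ) * ft (G η) ξ)) hint
    (Filter.Eventually.of_forall fun ξ => ?_)
  · refine le_trans hle (le_of_eq ?_)
    rw [integral_const_mul]
    ring
  · rw [norm_mul, norm_e, one_mul, norm_mul, Complex.norm_real, Real.norm_eq_abs]
    have h1 := hM (ra (Real.sqrt (∑ i, η i ^ 2)) ξ)
    have h2 : (ra (Real.sqrt (∑ i, η i ^ 2)) ξ) ^ 2 = ξ ^ 2 + ∑ i, η i ^ 2 := by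
      unfold ra
      rw [Real.sq_sqrt (by positivity), Real.sq_sqrt hS]
    rw [h2] at h1
    have h3 : Real.exp (-(κ * (ξ ^ 2 + ∑ i, η i ^ 2))) =
        Real.exp (-(κ * ∑ i, η i ^ 2)) * Real.exp (-κ * ξ ^ 2) := by
      rw [← Real.exp_add]
      ring_nf
    rw [h3] at h1
    calc |M (ra (Real.sqrt (∑ i, η i ^ 2)) ξ)| * ‖ft (G η) ξ‖
        ≤ (K * (Real.exp (-(κ * ∑ i, η i ^ 2)) * Real.exp (-κ * ξ ^ 2))) * ∫ z, g z :=
          mul_le_mul h1 (hA ξ) (norm_nonneg _) (by positivity)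
      _ = _ := by ring

theorem ae_pos {m : ℕ} (hm : 0 < m) :
    ∀ᵐ η : Fin m → ℝ, 0 < Real.sqrt (∑ i, η i ^ 2) := by
  have : Nonempty (Fin m) := ⟨⟨0, hm⟩⟩
  have h0 : ∀ᵐ η : Fin m → ℝ, η ≠ 0 := by
    rw [ae_iff]
    have : {a : Fin m → ℝ | ¬ a ≠ 0} = {0} := by
      ext a; simp
    rw [this]
    exact measure_singleton _
  filter_upwards [h0] with η hη
  refine Real.sqrt_pos.2 ?_
  obtain ⟨i, hi⟩ := Function.ne_iff.1 hη
  have h1 : 0 < η i ^ 2 := by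
    have : η i ≠ 0 := hi
    positivity
  exact lt_of_lt_of_le h1 (Finset.single_le_sum (f := fun i => η i ^ 2)
    (fun j _ => sq_nonneg _) (Finset.mem_univ i))

/-- the general form -/
theorem main {m : ℕ} (hm : 0 < m) {C4 C1 : ℝ} (hC4 : 0 < C4)
    (hE4 : ∀ (H : (Fin m → ℝ) → ℂ), Integrable H →
      ∫⁻ y : Fin m → ℝ, ‖∫ η : Fin m → ℝ, e (∑ i, y i * η i) * H η‖ₑ ^ 4 ≤
      ENNReal.ofReal (C4 ^ m) * ∫⁻ η : Fin m → ℝ, ENNReal.ofReal ((∏ i, |η i|) ^ 2) * ‖H η‖ₑ ^ 4)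
    {M : ℝ → ℝ → ℝ} (hM : Measurable (Function.uncurry M)) {K κ : ℝ} (hκ : 0 < κ)
    (hMb : ∀ t ∈ Icc (1 : ℝ) 2, ∀ r, |M t r| ≤ K * Real.exp (-(κ * r ^ 2)))
    (hone : ∀ (a : ℝ) (G : ℝ → ℂ), 0 < a → Integrable G →
      ∫⁻ t in Icc (1 : ℝ) 2, ∫⁻ x : ℝ, ‖Ux a (M t) G x‖ₑ ^ 4 ≤
        ENNReal.ofReal C1 * ∫⁻ x : ℝ, ‖G x‖ₑ ^ 4)
    {G : (Fin m → ℝ) → ℝ → ℂ} (hG : Adm m G) :
    ∫⁻ t in Icc (1 : ℝ) 2, ∫⁻ x : ℝ, ∫⁻ y : Fin m → ℝ, ‖Tm m (M t) G y x‖ₑ ^ 4 ≤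
      ENNReal.ofReal (C4 ^ m * C1) * ∫⁻ x : ℝ, ∫⁻ η : Fin m → ℝ,
        ENNReal.ofReal ((∏ i, |η i|) ^ 2) * ‖G η x‖ₑ ^ 4 := by
  obtain ⟨hGm, g, hg, hGg⟩ := hG
  obtain ⟨H, hH⟩ : ∃ H : ℝ → ℝ → (Fin m → ℝ) → ℂ, ∀ t x η, H t x η =
      Ux (Real.sqrt (∑ i, η i ^ 2)) (M t) (G η) x := ⟨_, fun _ _ _ => rfl⟩
  obtain ⟨w, hw⟩ : ∃ w : (Fin m → ℝ) → ℝ≥0∞, ∀ η, w η = ENNReal.ofReal ((∏ i, |η i|) ^ 2) :=
    ⟨_, fun _ => rfl⟩
  have hHm : StronglyMeasurable (fun p : ℝ × ℝ × (Fin m → ℝ) => H p.1 p.2.1 p.2.2) := by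
    have h := H_meas hGm hM
    simp only [← hH] at h
    exact h
  have hwm : Measurable w := by
    have h : w = fun η => ENNReal.ofReal ((∏ i, |η i|) ^ 2) := funext hw
    rw [h]
    refine ENNReal.measurable_ofReal.comp ?_
    fun_prop
  have hw_top : ∀ η, w η ≠ ⊤ := fun η => by rw [hw]; exact ENNReal.ofReal_ne_top
  obtain ⟨N, hN⟩ : ∃ N : ℝ → ℝ → (Fin m → ℝ) → ℝ≥0∞, ∀ t x η, N t x η = ‖H t x η‖ₑ ^ 4 :=
    ⟨_, fun _ _ _ => rfl⟩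
  have hHe : Measurable (fun p : ℝ × ℝ × (Fin m → ℝ) => N p.1 p.2.1 p.2.2) := by
    simp only [hN]
    exact hHm.measurable.enorm.pow_const 4
  simp only [← hw]
  -- step 1: E4 at fixed `t`, `x`
  have h1 : ∀ t ∈ Icc (1 : ℝ) 2, ∀ x : ℝ, ∫⁻ y : Fin m → ℝ, ‖Tm m (M t) G y x‖ₑ ^ 4 ≤
      ENNReal.ofReal (C4 ^ m) * ∫⁻ η : Fin m → ℝ, w η * N t x η := by
    intro t ht x
    have hk : Integrable (fun η => H t x η) := ?_
    · have h := hE4 (fun η => H t x η) hk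
      simp only [hH, ← hw] at h
      simp only [hN, hH]
      exact h
    refine Integrable.mono' ((gauss_int (m := m) hκ).const_mul
      (K * (∫ z, g z) * ∫ ξ : ℝ, Real.exp (-κ * ξ ^ 2))) ?_ ?_
    · refine (hHm.comp_measurable
        (by fun_prop : Measurable fun η : Fin m → ℝ => ((t, x, η) : ℝ × ℝ × (Fin m → ℝ)))).aestronglyMeasurable
    · refine Filter.Eventually.of_forall fun η => ?_
      rw [hH]
      exact H_bound hg hGg hκ (hMb t ht) x η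
  -- step 2: integrate
  have h2 : ∫⁻ t in Icc (1 : ℝ) 2, ∫⁻ x : ℝ, ∫⁻ y : Fin m → ℝ, ‖Tm m (M t) G y x‖ₑ ^ 4 ≤
      ENNReal.ofReal (C4 ^ m) * ∫⁻ t in Icc (1 : ℝ) 2, ∫⁻ x : ℝ, ∫⁻ η : Fin m → ℝ,
        w η * N t x η := by
    rw [← lintegral_const_mul' _ _ ENNReal.ofReal_ne_top]
    refine setLIntegral_mono' measurableSet_Icc ?_
    intro t ht
    rw [← lintegral_const_mul' _ _ ENNReal.ofReal_ne_top]
    exact lintegral_mono fun x => h1 t ht x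
  refine le_trans h2 ?_
  have h3 : ∫⁻ t in Icc (1 : ℝ) 2, ∫⁻ x : ℝ, ∫⁻ η : Fin m → ℝ, w η * N t x η =
      ∫⁻ η : Fin m → ℝ, w η * ∫⁻ t in Icc (1 : ℝ) 2, ∫⁻ x : ℝ, N t x η := by
    have e1 : ∀ t : ℝ, ∫⁻ x : ℝ, ∫⁻ η : Fin m → ℝ, w η * N t x η =
        ∫⁻ η : Fin m → ℝ, w η * ∫⁻ x : ℝ, N t x η := by
      intro t
      have hm1 : Measurable (fun p : ℝ × (Fin m → ℝ) => N t p.1 p.2) :=
        hHe.comp (by fun_prop : Measurable fun p : ℝ × (Fin m → ℝ) =>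
          ((t, p.1, p.2) : ℝ × ℝ × (Fin m → ℝ)))
      have hm2 : Measurable (fun p : ℝ × (Fin m → ℝ) => w p.2 * N t p.1 p.2) :=
        (hwm.comp measurable_snd).mul hm1
      have hm3 : AEMeasurable (Function.uncurry (fun (x : ℝ) (η : Fin m → ℝ) => w η * N t x η))
          ((volume : Measure ℝ).prod (volume : Measure (Fin m → ℝ))) := hm2.aemeasurable
      rw [lintegral_lintegral_swap hm3]
      refine lintegral_congr fun η => ?_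
      rw [lintegral_const_mul' _ _ (hw_top η)]
    have hm4 : Measurable (fun q : (ℝ × (Fin m → ℝ)) × ℝ => N q.1.1 q.2 q.1.2) :=
      hHe.comp (by fun_prop : Measurable fun q : (ℝ × (Fin m → ℝ)) × ℝ =>
        ((q.1.1, q.2, q.1.2) : ℝ × ℝ × (Fin m → ℝ)))
    have hm5 : Measurable (fun p : ℝ × (Fin m → ℝ) => ∫⁻ x : ℝ, N p.1 x p.2) :=
      Measurable.lintegral_prod_right' (f := fun q : (ℝ × (Fin m → ℝ)) × ℝ => N q.1.1 q.2 q.1.2)
        hm4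
    have hm6 : Measurable (fun p : ℝ × (Fin m → ℝ) => w p.2 * ∫⁻ x : ℝ, N p.1 x p.2) :=
      (hwm.comp measurable_snd).mul hm5
    have hm7 : AEMeasurable (Function.uncurry
        (fun (t : ℝ) (η : Fin m → ℝ) => w η * ∫⁻ x : ℝ, N t x η))
        (((volume : Measure ℝ).restrict (Icc (1 : ℝ) 2)).prod (volume : Measure (Fin m → ℝ))) :=
      hm6.aemeasurable
    rw [lintegral_congr e1, lintegral_lintegral_swap hm7]
    refine lintegral_congr fun η => ?_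
    rw [lintegral_const_mul' _ _ (hw_top η)]
  rw [h3]
  have h4 : ∫⁻ η : Fin m → ℝ, w η * ∫⁻ t in Icc (1 : ℝ) 2, ∫⁻ x : ℝ, N t x η ≤
      ENNReal.ofReal C1 * ∫⁻ η : Fin m → ℝ, w η * ∫⁻ x : ℝ, ‖G η x‖ₑ ^ 4 := by
    rw [← lintegral_const_mul' _ _ ENNReal.ofReal_ne_top]
    refine lintegral_mono_ae ?_
    filter_upwards [ae_pos hm] with η hη
    have hGi : Integrable (G η) := by
      refine Integrable.mono' hg ?_ (Filter.Eventually.of_forall fun x => hGg η x)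
      exact (hGm.comp (by fun_prop : Measurable fun x : ℝ =>
        ((η, x) : (Fin m → ℝ) × ℝ))).aestronglyMeasurable
    have h := hone _ (G η) hη hGi
    have h' : ∫⁻ t in Icc (1 : ℝ) 2, ∫⁻ x : ℝ, N t x η ≤
        ENNReal.ofReal C1 * ∫⁻ x : ℝ, ‖G η x‖ₑ ^ 4 := by
      simp only [hN, hH]
      exact h
    calc w η * ∫⁻ t in Icc (1 : ℝ) 2, ∫⁻ x : ℝ, N t x η
        ≤ w η * (ENNReal.ofReal C1 * ∫⁻ x : ℝ, ‖G η x‖ₑ ^ 4) := mul_le_mul_right h' _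
      _ = ENNReal.ofReal C1 * (w η * ∫⁻ x : ℝ, ‖G η x‖ₑ ^ 4) := by ring
  have h5 : ∫⁻ η : Fin m → ℝ, w η * ∫⁻ x : ℝ, ‖G η x‖ₑ ^ 4 =
      ∫⁻ x : ℝ, ∫⁻ η : Fin m → ℝ, w η * ‖G η x‖ₑ ^ 4 := by
    have hm1 : Measurable (fun p : ℝ × (Fin m → ℝ) => ‖G p.2 p.1‖ₑ ^ 4) :=
      (hGm.comp (by fun_prop : Measurable fun p : ℝ × (Fin m → ℝ) => (p.2, p.1))).enorm.pow_const 4
    have hm2 : Measurable (fun p : ℝ × (Fin m → ℝ) => w p.2 * ‖G p.2 p.1‖ₑ ^ 4) :=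
      (hwm.comp measurable_snd).mul hm1
    have hm3 : AEMeasurable (Function.uncurry (fun (x : ℝ) (η : Fin m → ℝ) => w η * ‖G η x‖ₑ ^ 4))
        ((volume : Measure ℝ).prod (volume : Measure (Fin m → ℝ))) := hm2.aemeasurable
    rw [lintegral_lintegral_swap hm3]
    refine lintegral_congr fun η => ?_
    rw [lintegral_const_mul' _ _ (hw_top η)]
  calc ENNReal.ofReal (C4 ^ m) * ∫⁻ η : Fin m → ℝ, w η *
        ∫⁻ t in Icc (1 : ℝ) 2, ∫⁻ x : ℝ, N t x η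
      ≤ ENNReal.ofReal (C4 ^ m) * (ENNReal.ofReal C1 *
        ∫⁻ η : Fin m → ℝ, w η * ∫⁻ x : ℝ, ‖G η x‖ₑ ^ 4) := mul_le_mul_right h4 _
    _ = ENNReal.ofReal (C4 ^ m * C1) * ∫⁻ x : ℝ, ∫⁻ η : Fin m → ℝ, w η * ‖G η x‖ₑ ^ 4 := by
        rw [h5, ← mul_assoc, ENNReal.ofReal_mul (by positivity)]

theorem mc_meas (s τ : ℝ) : Measurable (Function.uncurry (mc s τ)) := by
  unfold Function.uncurry mc
  fun_prop

theorem ms_meas (s τ : ℝ) : Measurable (Function.uncurry (ms s τ)) := by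
  unfold Function.uncurry ms
  fun_prop

theorem mc_bound {s τ : ℝ} (hs : 0 < s) (t r : ℝ) :
    |mc s τ t r| ≤ 1 * Real.exp (-(τ * r ^ 2)) := by
  unfold mc
  have h1 : (1 : ℝ) ≤ 1 + 4 * Real.pi ^ 2 * r ^ 2 := by
    have : 0 ≤ 4 * Real.pi ^ 2 * r ^ 2 := by positivity
    linarith
  have h2 : (1 + 4 * Real.pi ^ 2 * r ^ 2) ^ (-(s / 2)) ≤ 1 :=
    Real.rpow_le_one_of_one_le_of_nonpos h1 (by linarith)
  have h3 : 0 ≤ (1 + 4 * Real.pi ^ 2 * r ^ 2) ^ (-(s / 2)) := by positivity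
  rw [abs_mul, abs_mul, abs_of_pos (Real.exp_pos _), abs_of_nonneg h3, one_mul]
  have h4 := Real.abs_cos_le_one (2 * Real.pi * (t * r))
  calc Real.exp (-(τ * r ^ 2)) * (|Real.cos (2 * Real.pi * (t * r))| *
        (1 + 4 * Real.pi ^ 2 * r ^ 2) ^ (-(s / 2)))
      ≤ Real.exp (-(τ * r ^ 2)) * (1 * 1) := by gcongr
    _ = _ := by ring

theorem ms_bound {s τ : ℝ} (hs : 0 < s) (hτ : 0 < τ) (t r : ℝ) (ht : t ∈ Icc (1 : ℝ) 2) :
    |ms s τ t r| ≤ (2 * (1 + 8 * Real.pi ^ 2 / τ)) * Real.exp (-(τ / 2 * r ^ 2)) := by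
  unfold ms
  have h1 : (1 : ℝ) ≤ 1 + 4 * Real.pi ^ 2 * r ^ 2 := by
    have : 0 ≤ 4 * Real.pi ^ 2 * r ^ 2 := by positivity
    linarith
  have h2 : (1 + 4 * Real.pi ^ 2 * r ^ 2) ^ ((1 - s) / 2) ≤ 1 + 4 * Real.pi ^ 2 * r ^ 2 := by
    calc (1 + 4 * Real.pi ^ 2 * r ^ 2) ^ ((1 - s) / 2)
        ≤ (1 + 4 * Real.pi ^ 2 * r ^ 2) ^ (1 : ℝ) :=
          Real.rpow_le_rpow_of_exponent_le h1 (by linarith)
      _ = _ := Real.rpow_one _
  have h3 : 0 ≤ (1 + 4 * Real.pi ^ 2 * r ^ 2) ^ ((1 - s) / 2) := by positivity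
  have h4 : |Real.sin (2 * Real.pi * (t * r)) / (2 * Real.pi * r)| ≤ 2 := by
    by_cases hr : r = 0
    · subst hr; simp
    · rw [abs_div, div_le_iff₀ (by positivity)]
      calc |Real.sin (2 * Real.pi * (t * r))| ≤ |2 * Real.pi * (t * r)| := Real.abs_sin_le_abs
        _ = |t| * |2 * Real.pi * r| := by rw [← abs_mul]; ring_nf
        _ ≤ 2 * |2 * Real.pi * r| := by
            refine mul_le_mul_of_nonneg_right ?_ (abs_nonneg _)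
            rw [abs_le]
            exact ⟨by linarith [ht.1], ht.2⟩
  have h5 : Real.exp (-(τ * r ^ 2)) = Real.exp (-(τ / 2 * r ^ 2)) * Real.exp (-(τ / 2 * r ^ 2)) := by
    rw [← Real.exp_add]; ring_nf
  have h6 : Real.exp (-(τ / 2 * r ^ 2)) * (1 + 4 * Real.pi ^ 2 * r ^ 2) ≤
      1 + 8 * Real.pi ^ 2 / τ := by
    have h7 := Real.add_one_le_exp (τ / 2 * r ^ 2)
    have h8 : 1 + 4 * Real.pi ^ 2 * r ^ 2 ≤ (1 + 8 * Real.pi ^ 2 / τ) * Real.exp (τ / 2 * r ^ 2) := by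
      calc 1 + 4 * Real.pi ^ 2 * r ^ 2 ≤ (1 + 8 * Real.pi ^ 2 / τ) * (τ / 2 * r ^ 2 + 1) := by
            have h9 : 8 * Real.pi ^ 2 / τ * (τ / 2 * r ^ 2) = 4 * Real.pi ^ 2 * r ^ 2 := by
              field_simp
              ring
            have h10 : 0 ≤ 8 * Real.pi ^ 2 / τ := by positivity
            have h11 : 0 ≤ τ / 2 * r ^ 2 := by positivity
            nlinarith
        _ ≤ _ := by gcongr
    rw [Real.exp_neg, inv_mul_le_iff₀ (Real.exp_pos _)]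
    linarith
  rw [abs_mul, abs_mul, abs_of_pos (Real.exp_pos _), abs_of_nonneg h3, h5]
  calc Real.exp (-(τ / 2 * r ^ 2)) * Real.exp (-(τ / 2 * r ^ 2)) *
        (|Real.sin (2 * Real.pi * (t * r)) / (2 * Real.pi * r)| *
        (1 + 4 * Real.pi ^ 2 * r ^ 2) ^ ((1 - s) / 2))
      ≤ Real.exp (-(τ / 2 * r ^ 2)) * Real.exp (-(τ / 2 * r ^ 2)) *
        (2 * (1 + 4 * Real.pi ^ 2 * r ^ 2)) := by gcongr
    _ = 2 * (Real.exp (-(τ / 2 * r ^ 2)) * (1 + 4 * Real.pi ^ 2 * r ^ 2)) *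
        Real.exp (-(τ / 2 * r ^ 2)) := by ring
    _ ≤ 2 * (1 + 8 * Real.pi ^ 2 / τ) * Real.exp (-(τ / 2 * r ^ 2)) := by gcongr

theorem t4_thm : S_E4 → S_ONE → S_T4 := by
  intro hE hO m s hm hs
  obtain ⟨C4, hC4, hE4⟩ := hE
  obtain ⟨C1, hC1, hone⟩ := hO s hs
  refine ⟨C4 ^ m * C1, by positivity, ?_⟩
  intro τ G hτ hτ1 hG
  refine ⟨?_, ?_⟩
  · exact main hm hC4 (hE4 m) (mc_meas s τ) hτ (fun t _ r => mc_bound hs t r)
      (fun a G' ha hG' => (hone a τ G' ha hτ hτ1 hG').1) hG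
  · exact main hm hC4 (hE4 m) (ms_meas s τ) (half_pos hτ)
      (fun t ht r => ms_bound hs hτ t r ht)
      (fun a G' ha hG' => (hone a τ G' ha hτ hτ1 hG').2) hG

end Pool.Agent.TH228.T4
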