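import Pool.Agent.TH182.NC.Defs
set_option autoImplicit false
namespace Pool.Agent.TH228.J1023

lemma pi_mem_smul_top {S : Type} [CommRing S] {ι M : Type} [Fintype ι] [AddCommGroup M]
    [Module S M] (J : Ideal S) (x : ι → M) (h : ∀ i, x i ∈ (J • ⊤ : Submodule S M)) :
    x ∈ (J • ⊤ : Submodule S (ι → M)) := by
  classical
  have hx : x = ∑ i, LinearMap.single S (fun _ : ι => M) i (x i) := by
    ext j
    simp [Finset.sum_apply, Pi.single_apply]
  rw [hx]
  refine Submodule.sum_mem _ (fun i _ => ?_)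
  have : LinearMap.single S (fun _ : ι => M) i (x i) ∈
      Submodule.map (LinearMap.single S (fun _ : ι => M) i) (J • ⊤ : Submodule S M) :=
    Submodule.mem_map_of_mem (h i)
  rw [Submodule.map_smul''] at this
  exact Submodule.smul_mono le_rfl le_top this

lemma apply_mem_smul_top {S : Type} [CommRing S] {ι M : Type} [AddCommGroup M]
    [Module S M] (J : Ideal S) (x : ι → M) (h : x ∈ (J • ⊤ : Submodule S (ι → M))) (i : ι) :
    x i ∈ (J • ⊤ : Submodule S M) := by
  have : LinearMap.proj (R := S) (φ := fun _ : ι => M) i x ∈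
      Submodule.map (LinearMap.proj (R := S) (φ := fun _ : ι => M) i)
        (J • ⊤ : Submodule S (ι → M)) := Submodule.mem_map_of_mem h
  rw [Submodule.map_smul''] at this
  exact Submodule.smul_mono le_rfl le_top this

theorem artinRees {S : Type} [CommRing S] [IsNoetherianRing S] (M : Type) [AddCommGroup M]
    [Module S M] [Module.Finite S M] (I : Ideal S) (φ : Module.End S M) (ζ : S) :
    ∃ k : ℕ, 1 ≤ k ∧ ∀ T : M →ₗ[S] M ⧸ (I ^ k • ⊤ : Submodule S M),
      (∀ v w : M, T v = Submodule.Quotient.mk w → T (φ v) = Submodule.Quotient.mk (ζ • φ w)) →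
      ∃ τ : Module.End S M, τ * φ = ζ • (φ * τ) ∧
        ∀ v w : M, T v = Submodule.Quotient.mk w → τ v - w ∈ (I • ⊤ : Submodule S M) := by
  classical
  obtain ⟨r, π, hπ⟩ := Module.Finite.exists_fin' S M
  obtain ⟨l, a, ha⟩ := Submodule.fg_iff_exists_fin_generating_family.1
    (IsNoetherian.noetherian (LinearMap.ker π))
  have hb : ∀ i, ∃ b : Fin r → S, π b = φ (π (Pi.single i 1)) := fun i => hπ _
  choose b hb using hb
  let Ψ : (Fin r → M) →ₗ[S] (Fin l ⊕ Fin r → M) :=
    LinearMap.pi (Sum.elim (fun j => ∑ i, a j i • LinearMap.proj i)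
      (fun i => ∑ m, b i m • LinearMap.proj m - ζ • (φ ∘ₗ LinearMap.proj i)))
  have hΨ1 : ∀ w j, Ψ w (Sum.inl j) = ∑ i, a j i • w i := by
    intro w j
    simp [Ψ, LinearMap.sum_apply]
  have hΨ2 : ∀ w i, Ψ w (Sum.inr i) = ∑ m, b i m • w m - ζ • φ (w i) := by
    intro w j
    simp [Ψ, LinearMap.sum_apply]
  obtain ⟨k0, hk0⟩ := I.exists_pow_inf_eq_pow_smul (LinearMap.range Ψ)
  have hk1 := hk0 (k0 + 1) (by omega)
  refine ⟨k0 + 1, by omega, fun T hT => ?_⟩
  have hw : ∀ i, ∃ w : M, T (π (Pi.single i 1)) = Submodule.Quotient.mk w := fun i =>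
    ⟨_, ((Submodule.Quotient.mk_surjective _ _).choose_spec).symm⟩
  choose w hw using hw
  have hpi : ∀ (N : Type) [AddCommGroup N] [Module S N] (f : (Fin r → S) →ₗ[S] N) (c : Fin r → S),
      f c = ∑ i, c i • f (Pi.single i 1) := by
    intro N _ _ f c
    conv_lhs => rw [pi_eq_sum_univ' c]
    rw [map_sum]
    refine Finset.sum_congr rfl (fun i _ => ?_)
    rw [← map_smul]
  have hTc : ∀ c : Fin r → S, T (π c) = Submodule.Quotient.mk (∑ i, c i • w i) := by
    intro c
    rw [hpi _ (T ∘ₗ π) c |> (fun h => (show T (π c) = _ from h))]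
    rw [← Submodule.mkQ_apply, map_sum]
    refine Finset.sum_congr rfl (fun i _ => ?_)
    rw [LinearMap.comp_apply, hw, map_smul, Submodule.mkQ_apply]
  have hmem : Ψ w ∈ (I ^ (k0 + 1) • ⊤ : Submodule S (Fin l ⊕ Fin r → M)) := by
    refine pi_mem_smul_top _ _ (fun j => ?_)
    rcases j with j | i
    · rw [hΨ1, ← Submodule.Quotient.mk_eq_zero, ← hTc]
      have : a j ∈ LinearMap.ker π := by
        rw [← ha]; exact Submodule.subset_span ⟨j, rfl⟩
      rw [LinearMap.mem_ker.1 this, map_zero]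
    · rw [hΨ2, ← Submodule.Quotient.mk_eq_zero, Submodule.Quotient.mk_sub, sub_eq_zero, ← hTc, hb]
      exact hT _ _ (hw i)
  have hmem2 : Ψ w ∈ (I ^ (k0 + 1) • ⊤ ⊓ LinearMap.range Ψ : Submodule S (Fin l ⊕ Fin r → M)) :=
    ⟨hmem, ⟨w, rfl⟩⟩
  rw [hk1] at hmem2
  have hmem3 : Ψ w ∈ Submodule.map Ψ (I • ⊤ : Submodule S (Fin r → M)) := by
    rw [Submodule.map_smul'', Submodule.map_top]
    have e : k0 + 1 - k0 = 1 := by omega
    rw [e, pow_one] at hmem2
    exact Submodule.smul_mono le_rfl inf_le_right hmem2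
  obtain ⟨w', hw', hww'⟩ := hmem3
  set u : Fin r → M := w - w' with hu
  have hΨu : Ψ u = 0 := by rw [hu, map_sub, hww', sub_self]
  let Lu : (Fin r → S) →ₗ[S] M := Fintype.linearCombination S u
  have hLu : ∀ c, Lu c = ∑ i, c i • u i := fun c => Fintype.linearCombination_apply S u c
  have hker : LinearMap.ker π ≤ LinearMap.ker Lu := by
    rw [← ha, Submodule.span_le]
    rintro _ ⟨j, rfl⟩
    rw [SetLike.mem_coe, LinearMap.mem_ker, hLu, ← hΨ1, hΨu]
    rfl
  let τ : Module.End S M :=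
    (Submodule.liftQ (LinearMap.ker π) Lu hker) ∘ₗ
      (π.quotKerEquivOfSurjective hπ).symm.toLinearMap
  have hτ : ∀ c, τ (π c) = Lu c := by
    intro c
    have : (π.quotKerEquivOfSurjective hπ).symm (π c) = Submodule.Quotient.mk c := by
      rw [LinearEquiv.symm_apply_eq]
      rfl
    simp only [τ, LinearMap.comp_apply, LinearEquiv.coe_coe, this]
    rfl
  refine ⟨τ, ?_, ?_⟩
  · have key : (τ * φ) ∘ₗ π = (ζ • (φ * τ)) ∘ₗ π := by
      refine LinearMap.pi_ext' (fun i => LinearMap.ext_ring ?_)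
      have h1 : (τ * φ) (π (Pi.single i 1)) = ∑ m, b i m • u m := by
        rw [Module.End.mul_apply, ← hb i, hτ, hLu]
      have h2 : (ζ • (φ * τ)) (π (Pi.single i 1)) = ζ • φ (u i) := by
        rw [LinearMap.smul_apply, Module.End.mul_apply, hτ, hLu]
        congr 2
        simp [Pi.single_apply]
      have h3 : ∑ m, b i m • u m - ζ • φ (u i) = 0 := by
        rw [← hΨ2, hΨu]; rfl
      change (τ * φ) (π (Pi.single i 1)) = (ζ • (φ * τ)) (π (Pi.single i 1))
      rw [h1, h2]
      exact sub_eq_zero.1 h3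
    ext v
    obtain ⟨c, rfl⟩ := hπ v
    exact LinearMap.congr_fun key c
  · intro v z hz
    obtain ⟨c, rfl⟩ := hπ v
    rw [hTc, Submodule.Quotient.eq] at hz
    have hz' : ∑ i, c i • w i - z ∈ (I • ⊤ : Submodule S M) := by
      refine Submodule.smul_mono ?_ le_rfl hz
      exact Ideal.pow_le_self (by omega)
    have hw'' : ∑ i, c i • w' i ∈ (I • ⊤ : Submodule S M) :=
      Submodule.sum_mem _ (fun i _ => Submodule.smul_mem _ _ (apply_mem_smul_top I w' hw' i))
    have e : τ (π c) - z = (∑ i, c i • w i - z) - ∑ i, c i • w' i := by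
      rw [hτ, hLu, hu]
      simp only [Pi.sub_apply, smul_sub, Finset.sum_sub_distrib]
      abel
    rw [e]
    exact Submodule.sub_mem _ hz' hw''

end Pool.Agent.TH228.J1023
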