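import Mathlib
set_option autoImplicit false

/-! Linear algebra for job 1110 -/

open Matrix Module

namespace Pool.Agent.TH228.FLA

/-- a matrix of rank `ρ` has a unit minor -/
lemma exists_PQ {K : Type*} [Field K] {N : ℕ} (A : Matrix (Fin N) (Fin N) K) (ρ : ℕ)
    (hρ : A.rank = ρ) :
    ∃ (P : Matrix (Fin ρ) (Fin N) K) (Q : Matrix (Fin N) (Fin ρ) K), P * A * Q = 1 := by
  classical
  let R := LinearMap.range A.mulVecLin
  have hR : finrank K R = ρ := hρ
  let bR : Basis (Fin ρ) K R := finBasisOfFinrankEq K R hR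
  have hq : ∀ i, ∃ q : Fin N → K, A *ᵥ q = bR i := by
    intro i
    obtain ⟨q, hq⟩ := LinearMap.mem_range.1 (bR i).2
    exact ⟨q, hq⟩
  choose q hq using hq
  obtain ⟨L, hL⟩ := (LinearMap.exists_leftInverse_of_injective R.subtype
    (LinearMap.ker_eq_bot.2 R.injective_subtype))
  let T : (Fin N → K) →ₗ[K] (Fin ρ → K) := (bR.equivFun : R →ₗ[K] (Fin ρ → K)) ∘ₗ L
  refine ⟨LinearMap.toMatrix' T, Matrix.of fun i j => q j i, ?_⟩
  ext i j
  have e1 : (LinearMap.toMatrix' T * A * Matrix.of fun i j => q j i) i j =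
      (T (A *ᵥ q j)) i := by
    have h3 : ∀ x, T x = (LinearMap.toMatrix' T) *ᵥ x := by
      intro x
      rw [LinearMap.toMatrix'_mulVec]
    rw [h3, Matrix.mulVec_mulVec, Matrix.mul_apply]
    rfl
  rw [e1, hq]
  have e2 : L (bR j : Fin N → K) = bR j := LinearMap.congr_fun hL (bR j)
  simp only [T, LinearMap.comp_apply, LinearEquiv.coe_coe]
  rw [e2, Basis.equivFun_apply, Basis.repr_self, Finsupp.single_apply, Matrix.one_apply]
  simp [eq_comm]

lemma eval_blocks {K : Type*} [Field K] {m n : Type*} [DecidableEq m] (D : Matrix m m K)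
    (E : Matrix m n K) (F : Matrix n m K) (G : Matrix n n K) (c : K) :
    (Matrix.fromBlocks (1 + (Polynomial.X : Polynomial K) • D.map Polynomial.C)
      (E.map Polynomial.C) ((Polynomial.X : Polynomial K) • F.map Polynomial.C)
      (G.map Polynomial.C)).map (Polynomial.evalRingHom c) =
      Matrix.fromBlocks (1 + c • D) E (c • F) G := by
  rw [Matrix.fromBlocks_map]
  congr 1
  · ext i j
    simp [Matrix.one_apply, apply_ite]
    ring
  · ext i j
    simp
  · ext i j
    simp
    ring
  · ext i j
    simp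

lemma det_zero_of_rank {K : Type*} [Field K] {n : Type*} [Fintype n] [DecidableEq n]
    (A : Matrix n n K) (h : A.rank < Fintype.card n) : A.det = 0 := by
  by_contra hd
  have : IsUnit A := (Matrix.isUnit_iff_isUnit_det A).2 (isUnit_iff_ne_zero.2 hd)
  rw [Matrix.rank_of_isUnit A this] at h
  exact lt_irrefl _ h

/-- if the rank of `A + c C` does not exceed the rank of `A` for infinitely many `c`, then `C`
vanishes on the kernels -/
lemma bilin_zero {K : Type*} [Field K] {N : ℕ} (A C : Matrix (Fin N) (Fin N) K) (S : Set K)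
    (hS : S.Infinite) (hr : ∀ c ∈ S, (A + c • C).rank ≤ A.rank) (v w : Fin N → K)
    (hv : v ᵥ* A = 0) (hw : A *ᵥ w = 0) : v ⬝ᵥ (C *ᵥ w) = 0 := by
  classical
  obtain ⟨ρ, hρ⟩ : ∃ ρ, A.rank = ρ := ⟨_, rfl⟩
  rw [hρ] at hr
  obtain ⟨P, Q, hPQ⟩ := exists_PQ A ρ hρ
  -- polynomial matrix
  let V : Matrix Unit (Fin N) K := Matrix.of fun _ j => v j
  let W : Matrix (Fin N) Unit K := Matrix.of fun i _ => w i
  have hVA : V * A = 0 := by
    ext i j
    exact congrFun hv j
  have hAW : A * W = 0 := by
    ext i j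
    exact congrFun hw i
  let Nm : Matrix (Fin ρ ⊕ Unit) (Fin ρ ⊕ Unit) (Polynomial K) :=
    Matrix.fromBlocks (1 + (Polynomial.X : Polynomial K) • (P * C * Q).map Polynomial.C)
      ((P * C * W).map Polynomial.C)
      ((Polynomial.X : Polynomial K) • (V * C * Q).map Polynomial.C)
      ((V * C * W).map Polynomial.C)
  have hev : ∀ c : K, Nm.map (Polynomial.evalRingHom c) =
      Matrix.fromBlocks (1 + c • (P * C * Q)) (P * C * W) (c • (V * C * Q)) (V * C * W) := by
    intro c
    exact eval_blocks _ _ _ _ c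
  have hdet : ∀ c : K, Polynomial.eval c Nm.det =
      (Matrix.fromBlocks (1 + c • (P * C * Q)) (P * C * W) (c • (V * C * Q)) (V * C * W)).det := by
    intro c
    rw [← hev c]
    exact RingHom.map_det (Polynomial.evalRingHom c) Nm
  have hzero : ∀ c ∈ S, c ≠ 0 → Polynomial.eval c Nm.det = 0 := by
    intro c hc hc0
    rw [hdet]
    have e : Matrix.fromBlocks (1 + c • (P * C * Q)) (P * C * W) (c • (V * C * Q)) (V * C * W) =
        Matrix.fromRows P V * (A + c • C) * Matrix.fromCols Q (c⁻¹ • W) := by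
      rw [Matrix.fromRows_mul, Matrix.fromRows_mul_fromCols]
      have a1 : P * (A + c • C) * Q = 1 + c • (P * C * Q) := by
        rw [Matrix.mul_add, Matrix.add_mul, hPQ, Matrix.mul_smul, Matrix.smul_mul]
      have a2 : P * (A + c • C) * (c⁻¹ • W) = P * C * W := by
        have a5 : P * A * W = 0 := by rw [Matrix.mul_assoc, hAW, Matrix.mul_zero]
        simp only [Matrix.mul_add, Matrix.add_mul, Matrix.mul_smul, Matrix.smul_mul, a5,
          smul_zero, zero_add, smul_smul, inv_mul_cancel₀ hc0, mul_inv_cancel₀ hc0, one_smul]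
      have a3 : V * (A + c • C) * Q = c • (V * C * Q) := by
        rw [Matrix.mul_add, hVA, zero_add, Matrix.mul_smul, Matrix.smul_mul]
      have a4 : V * (A + c • C) * (c⁻¹ • W) = V * C * W := by
        simp only [Matrix.mul_add, Matrix.add_mul, Matrix.mul_smul, Matrix.smul_mul, hVA,
          Matrix.zero_mul, smul_zero, zero_add, smul_smul, inv_mul_cancel₀ hc0,
          mul_inv_cancel₀ hc0, one_smul]
      rw [a1, a2, a3, a4]
    rw [e]
    apply det_zero_of_rank
    have b1 : (Matrix.fromRows P V * (A + c • C) * Matrix.fromCols Q (c⁻¹ • W)).rank ≤ ρ :=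
      (Matrix.rank_mul_le_left _ _).trans ((Matrix.rank_mul_le_right _ _).trans (hr c hc))
    have b2 : Fintype.card (Fin ρ ⊕ Unit) = ρ + 1 := by simp
    omega
  have hpoly : Nm.det = 0 := by
    apply Polynomial.eq_zero_of_infinite_isRoot
    refine Set.Infinite.mono ?_ (hS.sdiff (Set.finite_singleton (0 : K)))
    intro c hc
    exact hzero c hc.1 hc.2
  have h0 := hdet 0
  rw [hpoly, Polynomial.eval_zero, zero_smul, add_zero, zero_smul,
    Matrix.det_fromBlocks_zero₂₁, Matrix.det_one, one_mul] at h0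
  rw [Matrix.det_unique] at h0
  have : (V * C * W) default default = v ⬝ᵥ (C *ᵥ w) := by
    rw [Matrix.mul_assoc]
    rfl
  rw [← this]
  exact h0.symm

/-- isotropic subspaces -/
lemma isotropic_bound {K : Type*} [Field K] {m N : ℕ} (V : Matrix (Fin m) (Fin N) K)
    (M : Matrix (Fin N) (Fin N) K) (hV : V.rank = m) (h : V * M * Vᵀ = 0) :
    2 * m + M.rank ≤ 2 * N := by
  have h1 : (V * M).rank + Vᵀ.rank ≤ N := by
    simpa using Matrix.rank_add_rank_le_card_of_mul_eq_zero h
  rw [Matrix.rank_transpose, hV] at h1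
  have h2 : M.rank + m ≤ (V * M).rank + N := by
    have e1 : (V * M).rank = finrank K ((LinearMap.range M.mulVecLin).map V.mulVecLin) := by
      rw [Matrix.rank, Matrix.mulVecLin_mul, LinearMap.range_comp]
    have e2 := LinearMap.finrank_range_add_finrank_ker
      (V.mulVecLin.domRestrict (LinearMap.range M.mulVecLin))
    have e3 : LinearMap.range (V.mulVecLin.domRestrict (LinearMap.range M.mulVecLin)) =
        (LinearMap.range M.mulVecLin).map V.mulVecLin := by
      rw [LinearMap.range_domRestrict]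
    rw [e3] at e2
    have e4 : finrank K (LinearMap.ker (V.mulVecLin.domRestrict (LinearMap.range M.mulVecLin))) ≤
        finrank K (LinearMap.ker V.mulVecLin) := by
      let f : LinearMap.ker (V.mulVecLin.domRestrict (LinearMap.range M.mulVecLin)) →ₗ[K]
          LinearMap.ker V.mulVecLin :=
        { toFun := fun x => ⟨x.1.1, x.2⟩
          map_add' := fun _ _ => rfl
          map_smul' := fun _ _ => rfl }
      refine LinearMap.finrank_le_finrank_of_injective (f := f) ?_
      intro x y hxy
      apply Subtype.ext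
      apply Subtype.ext
      exact congrArg (fun z => z.1) hxy
    have e5 := LinearMap.finrank_range_add_finrank_ker V.mulVecLin
    have e6 : finrank K (LinearMap.range V.mulVecLin) = m := hV
    have e7 : finrank K (Fin N → K) = N := by simp
    have e8 : finrank K (LinearMap.range M.mulVecLin) = M.rank := rfl
    rw [e6, e7] at e5
    rw [e8, ← e1] at e2
    omega
  omega

end Pool.Agent.TH228.FLA
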