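import Pool.Agent.TH182.NC.Defs
set_option autoImplicit false
open CategoryTheory Abelian
namespace Pool.Agent.TH228.J1026

lemma pi_apply_eq {B V : Type} [CommRing B] [AddCommGroup V] [Module B V]
    {r : ℕ} (f : (Fin r → B) →ₗ[B] V) (c : Fin r → B) :
    f c = ∑ i, c i • f (Pi.single i 1) := by
  conv_lhs => rw [pi_eq_sum_univ' c]
  rw [map_sum]
  refine Finset.sum_congr rfl (fun i _ => ?_)
  rw [← map_smul]

lemma mem_smul_of_ker {B V : Type} [CommRing B] [AddCommGroup V] [Module B V] (I : Ideal B)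
    (r : ℕ) (Ψ : (Fin r → B) →ₗ[B] V) (c : Fin r → B) (hc : ∀ i, c i ∈ I) :
    Ψ c ∈ (I • ⊤ : Submodule B V) := by
  rw [pi_apply_eq]
  exact Submodule.sum_mem _ (fun i _ => Submodule.smul_mem_smul (hc i) trivial)

lemma reduce {B V : Type} [CommRing B] [AddCommGroup V] [Module B V]
    (r : ℕ) (π : (Fin (r + 1) → B) →ₗ[B] V) (hπ : Function.Surjective π)
    (c : Fin (r + 1) → B) (hc : π c = 0) (i : Fin (r + 1)) (hci : IsUnit (c i)) :
    ∃ π' : (Fin r → B) →ₗ[B] V, Function.Surjective π' := by
  refine ⟨Fintype.linearCombination B (fun j => π (Pi.single (i.succAbove j) 1)), ?_⟩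
  set π' := Fintype.linearCombination B (fun j => π (Pi.single (i.succAbove j) 1)) with hπ'
  have hsum : ∀ x : Fin (r + 1) → B, π x = x i • π (Pi.single i 1) +
      π' (fun j => x (i.succAbove j)) := by
    intro x
    rw [pi_apply_eq π x, Fin.sum_univ_succAbove _ i, hπ', Fintype.linearCombination_apply]
  obtain ⟨a, ha⟩ := hci
  have hi : π (Pi.single i 1) = π' (fun j => -((a⁻¹ : Bˣ) : B) * c (i.succAbove j)) := by
    have h1 := hsum c
    rw [hc] at h1
    have h2 : (fun j => -((a⁻¹ : Bˣ) : B) * c (i.succAbove j)) =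
        -((a⁻¹ : Bˣ) : B) • (fun j => c (i.succAbove j)) := by
      ext j; simp
    rw [h2, map_smul]
    have h3 : π' (fun j => c (i.succAbove j)) = -(c i • π (Pi.single i 1)) := by
      rw [eq_neg_iff_add_eq_zero, add_comm]; exact h1.symm
    rw [h3, neg_smul, smul_neg, neg_neg, smul_smul, ← ha, Units.inv_mul, one_smul]
  intro v
  obtain ⟨x, rfl⟩ := hπ v
  refine ⟨x i • (fun j => -((a⁻¹ : Bˣ) : B) * c (i.succAbove j)) +
    (fun j => x (i.succAbove j)), ?_⟩
  rw [map_add, map_smul, ← hi, ← hsum]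

lemma exists_min (B : Type) [CommRing B] [IsLocalRing B] (V : Type)
    [AddCommGroup V] [Module B V] [Module.Finite B V] :
    ∃ (r : ℕ) (π : (Fin r → B) →ₗ[B] V), Function.Surjective π ∧
      ∀ c ∈ LinearMap.ker π, ∀ i, c i ∈ IsLocalRing.maximalIdeal B := by
  classical
  have hex : ∃ r : ℕ, ∃ π : (Fin r → B) →ₗ[B] V, Function.Surjective π :=
    Module.Finite.exists_fin' B V
  obtain ⟨r, ⟨π, hπ⟩, hmin⟩ : ∃ r : ℕ, (∃ π : (Fin r → B) →ₗ[B] V, Function.Surjective π) ∧
      ∀ m, m < r → ¬ ∃ π : (Fin m → B) →ₗ[B] V, Function.Surjective π :=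
    ⟨Nat.find hex, Nat.find_spec hex, fun m hm => Nat.find_min hex hm⟩
  refine ⟨r, π, hπ, ?_⟩
  intro c hc i
  by_contra hci
  rw [IsLocalRing.mem_maximalIdeal, mem_nonunits_iff, not_not] at hci
  rcases r with _ | r
  · exact Fin.elim0 i
  exact hmin r (by omega) (reduce r π hπ c hc i hci)

theorem free_of_ext (B : Type) [CommRing B] [IsLocalRing B] [IsNoetherianRing B] (V : Type)
    [AddCommGroup V] [Module B V] [Module.Finite B V]
    (hpd : HasProjectiveDimensionLT (ModuleCat.of B V) 2)
    (hext : ∀ (r : ℕ) (π : (Fin r → B) →ₗ[B] V), Function.Surjective π →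
      ∀ ψ : LinearMap.ker π →ₗ[B] V, ∃ Ψ : (Fin r → B) →ₗ[B] V,
        ∀ g : LinearMap.ker π, Ψ g = ψ g) : Module.Free B V := by
  obtain ⟨r, π, hπ, hker⟩ := exists_min B V
  have hS : (π.shortComplexKer).ShortExact := LinearMap.shortExact_shortComplexKer hπ
  have hproj2 : Projective (π.shortComplexKer).X₂ := by
    rw [← IsProjective.iff_projective]
    change Module.Projective B (Fin r → B)
    infer_instance
  have hpK : HasProjectiveDimensionLT (π.shortComplexKer).X₁ 1 :=
    (hS.hasProjectiveDimensionLT_X₃_iff 0 hproj2).1 hpd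
  rw [← projective_iff_hasProjectiveDimensionLT_one, ← IsProjective.iff_projective] at hpK
  have hpK' : Module.Projective B (LinearMap.ker π) := hpK
  have hfin : Module.Finite B (LinearMap.ker π) := inferInstance
  have hfree : Module.Free B (LinearMap.ker π) := Module.free_of_flat_of_isLocalRing
  by_cases hbot : LinearMap.ker π = ⊥
  · have e := LinearEquiv.ofBijective π ⟨LinearMap.ker_eq_bot.1 hbot, hπ⟩
    exact Module.Free.of_equiv e
  · exfalso
    have hnt : Nontrivial (LinearMap.ker π) := (Submodule.nontrivial_iff_ne_bot).2 hbot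
    let b := Module.Free.chooseBasis B (LinearMap.ker π)
    have hne : Nonempty (Module.Free.ChooseBasisIndex B (LinearMap.ker π)) :=
      b.index_nonempty
    obtain ⟨i0⟩ := hne
    have hVne : ¬ (⊤ : Submodule B V) ≤ (IsLocalRing.maximalIdeal B) • (⊤ : Submodule B V) := by
      intro hle
      have := Submodule.eq_bot_of_le_smul_of_le_jacobson_bot (IsLocalRing.maximalIdeal B) ⊤
        Module.Finite.fg_top hle (IsLocalRing.maximalIdeal_le_jacobson _)
      -- V = 0
      have hmem : (b i0 : Fin r → B) ∈ LinearMap.ker π := (b i0).2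
      have hVs : Subsingleton V := (Submodule.subsingleton_iff B).1 (subsingleton_of_bot_eq_top this.symm)
      rcases r with _ | r
      · apply hbot
        rw [Submodule.eq_bot_iff]
        intro x _
        exact Subsingleton.elim _ _
      · have h1 : (fun _ => (1 : B)) ∈ LinearMap.ker π := by
          rw [LinearMap.mem_ker]
          exact Subsingleton.elim _ _
        have := hker _ h1 0
        exact (IsLocalRing.mem_maximalIdeal _).1 this isUnit_one
    obtain ⟨v, -, hv⟩ := Set.not_subset.1 hVne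
    obtain ⟨Ψ, hΨ⟩ := hext r π hπ ((b.coord i0).smulRight v)
    have h1 := hΨ (b i0)
    rw [LinearMap.smulRight_apply, Module.Basis.coord_apply, Module.Basis.repr_self,
      Finsupp.single_eq_same, one_smul] at h1
    apply hv
    rw [← h1]
    exact mem_smul_of_ker _ _ Ψ _ (hker _ (b i0).2)

end Pool.Agent.TH228.J1026
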