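import Pool.Agent.TH182.NC.Defs
set_option autoImplicit false
open CategoryTheory Abelian
open scoped TensorProduct
namespace Pool.Agent.TH228.J1027

lemma projective_trans {B L : Type} [CommRing B] [Ring L] [Algebra B L] [Module.Projective B L]
    (X : Type) [AddCommGroup X] [Module B X] [Module L X] [IsScalarTower B L X]
    (h : Module.Projective L X) : Module.Projective B X := by
  obtain ⟨s, hs⟩ := Module.projective_def'.1 h
  classical
  have : Module.Projective B (X →₀ L) :=
    Module.Projective.of_equiv (finsuppLequivDFinsupp (ι := X) (M := L) B).symm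
  refine Module.Projective.of_split (M := X →₀ L) (s.restrictScalars B)
    ((Finsupp.linearCombination L (id : X → X)).restrictScalars B) ?_
  ext x
  exact LinearMap.congr_fun hs x

lemma pd_restrict {B L : Type} [CommRing B] [Ring L] [Algebra B L] [Module.Projective B L]
    (n : ℕ) : ∀ (X : Type) [AddCommGroup X] [Module B X] [Module L X] [IsScalarTower B L X],
    HasProjectiveDimensionLE (ModuleCat.of L X) n →
      HasProjectiveDimensionLE (ModuleCat.of B X) n := by
  induction n with
  | zero =>
    intro X _ _ _ _ h
    simp only [HasProjectiveDimensionLE, zero_add] at h ⊢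
    rw [← projective_iff_hasProjectiveDimensionLT_one, ← IsProjective.iff_projective] at h ⊢
    exact projective_trans (B := B) (L := L) X h
  | succ n ih =>
    intro X _ _ _ _ h
    let π : (X →₀ L) →ₗ[L] X := Finsupp.linearCombination L (id : X → X)
    have hπ : Function.Surjective π := Finsupp.linearCombination_id_surjective L X
    have hS : (π.shortComplexKer).ShortExact := LinearMap.shortExact_shortComplexKer hπ
    have p2 : Projective (π.shortComplexKer).X₂ := by
      rw [← IsProjective.iff_projective]
      change Module.Projective L (X →₀ L)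
      infer_instance
    have h1 : HasProjectiveDimensionLE (ModuleCat.of L (LinearMap.ker π)) n :=
      (hS.hasProjectiveDimensionLT_X₃_iff n p2).1 h
    have h2 : HasProjectiveDimensionLE (ModuleCat.of B (LinearMap.ker π)) n := ih _ h1
    let πB : (X →₀ L) →ₗ[B] X := π.restrictScalars B
    have hSB : (πB.shortComplexKer).ShortExact := LinearMap.shortExact_shortComplexKer hπ
    have p2B : Projective (πB.shortComplexKer).X₂ := by
      rw [← IsProjective.iff_projective]
      change Module.Projective B (X →₀ L)
      exact projective_trans (B := B) (L := L) (X →₀ L) inferInstance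
    let e : LinearMap.ker π ≃ₗ[B] LinearMap.ker πB :=
      { toFun := fun x => ⟨x.1, x.2⟩
        invFun := fun x => ⟨x.1, x.2⟩
        left_inv := fun _ => rfl
        right_inv := fun _ => rfl
        map_add' := fun _ _ => rfl
        map_smul' := fun _ _ => rfl }
    have h3 : HasProjectiveDimensionLT (πB.shortComplexKer).X₁ (n + 1) := by
      have := h2
      exact hasProjectiveDimensionLT_of_iso (X := ModuleCat.of B (LinearMap.ker π))
        (X' := ModuleCat.of B (LinearMap.ker πB)) e.toModuleIso (n + 1)
    exact (hSB.hasProjectiveDimensionLT_X₃_iff n p2B).2 h3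

theorem gl_end (B : Type) [CommRing B] (V : Type) [AddCommGroup V] [Module B V]
    [Module.Finite B V] [Module.Free B V] [Nontrivial V] (d : ℕ)
    (h : ∀ X : ModuleCat.{0} (Module.End B V), HasProjectiveDimensionLT X d)
    (N : ModuleCat.{0} B) : HasProjectiveDimensionLT N d := by
  classical
  rcases d with _ | d
  · exfalso
    have h1 := h (ModuleCat.of (Module.End B V) V)
    have h2 := isZero_of_hasProjectiveDimensionLT_zero (ModuleCat.of (Module.End B V) V)
    rw [ModuleCat.isZero_iff_subsingleton] at h2
    exact not_subsingleton V h2
  let b := Module.Free.chooseBasis B V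
  obtain ⟨i0⟩ : Nonempty (Module.Free.ChooseBasisIndex B V) := b.index_nonempty
  have hproj : Module.Projective B (Module.End B V) := by
    have : Module.Free B (Module.End B V) := inferInstance
    infer_instance
  have htow : IsScalarTower B (Module.End B V) (V ⊗[B] N) := by
    refine ⟨fun r f x => ?_⟩
    induction x using TensorProduct.induction_on with
    | zero => simp
    | tmul v n => simp only [TensorProduct.smul_tmul', LinearMap.smul_apply, Module.End.smul_def]
    | add x y hx hy => rw [smul_add, hx, hy, smul_add, smul_add]
  have h1 : HasProjectiveDimensionLE (ModuleCat.of B (V ⊗[B] N)) d :=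
    pd_restrict (B := B) (L := Module.End B V) d (V ⊗[B] N) (h _)
  have h2 : HasProjectiveDimensionLT (ModuleCat.of B (V ⊗[B] N)) (d + 1) := h1
  let ι : N →ₗ[B] V ⊗[B] N := TensorProduct.mk B V N (b i0)
  let ρ : V ⊗[B] N →ₗ[B] N := (TensorProduct.lid B N).toLinearMap ∘ₗ
    (TensorProduct.map (b.coord i0) LinearMap.id)
  have hρι : ρ ∘ₗ ι = LinearMap.id := by
    ext n
    simp [ι, ρ]
  have hr : Retract N (ModuleCat.of B (V ⊗[B] N)) :=
    { i := ModuleCat.ofHom ι
      r := ModuleCat.ofHom ρ
      retract := by
        rw [← ModuleCat.ofHom_comp, hρι]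
        rfl }
  exact hr.hasProjectiveDimensionLT (d + 1)

end Pool.Agent.TH228.J1027
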