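import Pool.Agent.TH28.FL.Defs
set_option autoImplicit false

universe u v

open Module MvPolynomial Pool.Agent.TH28.FL

namespace Pool.Agent.TH228.FL

section
variable {k : Type u} [Field k] {g : Type v} [LieRing g] [LieAlgebra k g] {N : ℕ}

lemma lin_basis (b : Basis (Fin N) k g) (i : Fin N) : lin b (b i) = X i := by
  rw [lin, Basis.constr_basis]

lemma lin_eq (b : Basis (Fin N) k g) (x : g) : lin b x = ∑ i, C (b.repr x i) * X i := by
  conv_lhs => rw [← b.sum_repr x]
  rw [map_sum]
  refine Finset.sum_congr rfl (fun i _ => ?_)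
  rw [map_smul, lin_basis, smul_eq_C_mul]

lemma pderiv_lin (b : Basis (Fin N) k g) (x : g) (i : Fin N) :
    pderiv i (lin b x) = C (b.repr x i) := by
  rw [lin_eq, map_sum, Finset.sum_eq_single i]
  · rw [pderiv_C_mul, pderiv_X_self, mul_one]
  · intro j _ hj
    rw [pderiv_C_mul, pderiv_X_of_ne (Ne.symm hj).symm, mul_zero]
  · intro h; exact absurd (Finset.mem_univ i) h

lemma lin_bilin (b : Basis (Fin N) k g) (β : g →ₗ[k] g →ₗ[k] g) (x y : g) :
    ∑ i, ∑ j, pderiv i (lin b x) * pderiv j (lin b y) * lin b (β (b i) (b j)) =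
      lin b (β x y) := by
  have h1 : β x y = ∑ i, ∑ j, (b.repr x i * b.repr y j) • β (b i) (b j) := by
    conv_lhs => rw [← b.sum_repr x, ← b.sum_repr y]
    simp only [map_sum, LinearMap.sum_apply, map_smul, LinearMap.smul_apply, Finset.smul_sum]
    rw [Finset.sum_comm]
    refine Finset.sum_congr rfl (fun i _ => Finset.sum_congr rfl (fun j _ => ?_))
    rw [smul_smul, mul_comm]
  rw [h1]
  simp only [map_sum, map_smul]
  refine Finset.sum_congr rfl (fun i _ => Finset.sum_congr rfl (fun j _ => ?_))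
  rw [pderiv_lin, pderiv_lin, smul_eq_C_mul, C_mul]

/-- chain rule -/
lemma pderiv_aeval (s : Fin N → MvPolynomial (Fin N) k) (p : MvPolynomial (Fin N) k)
    (i : Fin N) :
    pderiv i (aeval s p) = ∑ a, aeval s (pderiv a p) * pderiv i (s a) := by
  induction p using MvPolynomial.induction_on with
  | C a => simp
  | add p q hp hq =>
    simp only [map_add, hp, hq, add_mul, Finset.sum_add_distrib]
  | mul_X p n hp =>
    simp only [map_mul, Derivation.leibniz, hp, aeval_X, map_add, smul_eq_mul, pderiv_X, add_mul,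
      Finset.sum_add_distrib]
    congr 1
    · rw [Finset.sum_eq_single n]
      · simp
      · intro j _ hj
        simp [Pi.single_apply, hj.symm]
      · intro h; exact absurd (Finset.mem_univ n) h
    · rw [Finset.mul_sum]
      refine Finset.sum_congr rfl (fun a _ => ?_)
      ring

lemma aeval_lin (b : Basis (Fin N) k g) (ψ : g →ₗ[k] g) (x : g) :
    aeval (fun i => lin b (ψ (b i))) (lin b x) = lin b (ψ x) := by
  rw [lin_eq b x]
  conv_rhs => rw [← b.sum_repr x]
  simp only [map_sum, map_mul, aeval_X, map_smul]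
  refine Finset.sum_congr rfl (fun i _ => ?_)
  rw [smul_eq_C_mul, MvPolynomial.aeval_C]
  rfl

lemma pbr_aeval (b : Basis (Fin N) k g) (β β' : g →ₗ[k] g →ₗ[k] g) (ψ : g →ₗ[k] g)
    (hψ : ∀ x y, β' (ψ x) (ψ y) = ψ (β x y)) (p q : MvPolynomial (Fin N) k) :
    pbr b β' (aeval (fun i => lin b (ψ (b i))) p) (aeval (fun i => lin b (ψ (b i))) q) =
      aeval (fun i => lin b (ψ (b i))) (pbr b β p q) := by
  set s : Fin N → MvPolynomial (Fin N) k := fun i => lin b (ψ (b i)) with hs
  unfold pbr
  simp only [map_sum, map_mul]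
  have h1 : ∀ a c : Fin N, aeval s (lin b (β (b a) (b c))) =
      ∑ i, ∑ j, pderiv i (s a) * pderiv j (s c) * lin b (β' (b i) (b j)) := by
    intro a c
    rw [hs, aeval_lin, ← hψ, lin_bilin]
  simp only [h1]
  have hL : ∀ i j : Fin N, pderiv i (aeval s p) * pderiv j (aeval s q) * lin b (β' (b i) (b j)) =
      ∑ a, ∑ c, aeval s (pderiv a p) * aeval s (pderiv c q) *
        (pderiv i (s a) * pderiv j (s c) * lin b (β' (b i) (b j))) := by
    intro i j
    rw [pderiv_aeval, pderiv_aeval, Finset.sum_mul_sum, Finset.sum_mul]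
    refine Finset.sum_congr rfl (fun a _ => ?_)
    rw [Finset.sum_mul]
    refine Finset.sum_congr rfl (fun c _ => ?_)
    ring
  simp only [hL, Finset.mul_sum]
  calc _ = ∑ i : Fin N, ∑ a : Fin N, ∑ j : Fin N, ∑ c : Fin N,
        aeval s (pderiv a p) * aeval s (pderiv c q) *
        (pderiv i (s a) * pderiv j (s c) * lin b (β' (b i) (b j))) :=
        Finset.sum_congr rfl (fun i _ => Finset.sum_comm)
    _ = ∑ a : Fin N, ∑ i : Fin N, ∑ j : Fin N, ∑ c : Fin N,
        aeval s (pderiv a p) * aeval s (pderiv c q) *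
        (pderiv i (s a) * pderiv j (s c) * lin b (β' (b i) (b j))) := Finset.sum_comm
    _ = ∑ a : Fin N, ∑ i : Fin N, ∑ c : Fin N, ∑ j : Fin N,
        aeval s (pderiv a p) * aeval s (pderiv c q) *
        (pderiv i (s a) * pderiv j (s c) * lin b (β' (b i) (b j))) :=
        Finset.sum_congr rfl (fun a _ => Finset.sum_congr rfl (fun i _ => Finset.sum_comm))
    _ = _ := Finset.sum_congr rfl (fun a _ => Finset.sum_comm)

variable (h r : LieSubalgebra k g) (hc : IsCompl h.toSubmodule r.toSubmodule)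

lemma prh_add_prr (x : g) : prh h r hc x + prr h r hc x = x :=
  Submodule.projection_add_projection_eq_self hc x

lemma prh_mem (x : g) : prh h r hc x ∈ h := Submodule.projection_apply_mem hc x

lemma prr_mem (x : g) : prr h r hc x ∈ r := Submodule.projection_apply_mem hc.symm x

lemma prh_of_h {x : g} (hx : x ∈ h) : prh h r hc x = x :=
  Submodule.projection_apply_of_mem_left hc hx

lemma prr_of_r {x : g} (hx : x ∈ r) : prr h r hc x = x :=
  Submodule.projection_apply_of_mem_left hc.symm hx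

lemma prh_of_r {x : g} (hx : x ∈ r) : prh h r hc x = 0 :=
  Submodule.projection_apply_of_mem_right hc hx

lemma prr_of_h {x : g} (hx : x ∈ h) : prr h r hc x = 0 :=
  Submodule.projection_apply_of_mem_right hc.symm hx

lemma contr_apply (P Q : g →ₗ[k] g) (x y : g) :
    contr P Q x y = ⁅P x, P y⁆ + Q (⁅P x, Q y⁆ + ⁅Q x, P y⁆) := rfl

/-- the map `pr_h + s pr_r` -/
noncomputable def psi (s : k) : g →ₗ[k] g := prh h r hc + s • prr h r hc

lemma psi_apply (s : k) (x : g) : psi h r hc s x = prh h r hc x + s • prr h r hc x := rfl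

lemma prh_psi (s : k) (x : g) : prh h r hc (psi h r hc s x) = prh h r hc x := by
  rw [psi_apply, map_add, map_smul, prh_of_h h r hc (prh_mem h r hc x),
    prh_of_r h r hc (prr_mem h r hc x), smul_zero, add_zero]

lemma prr_psi (s : k) (x : g) : prr h r hc (psi h r hc s x) = s • prr h r hc x := by
  rw [psi_apply, map_add, map_smul, prr_of_r h r hc (prr_mem h r hc x),
    prr_of_h h r hc (prh_mem h r hc x), zero_add]

lemma psi_psi (t : k) (ht : t ≠ 0) (x : g) : psi h r hc t⁻¹ (psi h r hc t x) = x := by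
  rw [psi_apply, prh_psi, prr_psi, smul_smul, inv_mul_cancel₀ ht, one_smul, prh_add_prr]

lemma brt_psi (t : k) (ht : t ≠ 0) (x y : g) :
    brt h r hc (some t) (psi h r hc t⁻¹ x) (psi h r hc t⁻¹ y) = psi h r hc t⁻¹ ⁅x, y⁆ := by
  have e : brt h r hc (some t) (psi h r hc t⁻¹ x) (psi h r hc t⁻¹ y) =
      contr (prh h r hc) (prr h r hc) (psi h r hc t⁻¹ x) (psi h r hc t⁻¹ y) +
      t • contr (prr h r hc) (prh h r hc) (psi h r hc t⁻¹ x) (psi h r hc t⁻¹ y) := rfl
  rw [e, contr_apply, contr_apply]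
  simp only [prh_psi, prr_psi]
  have hx : ⁅x, y⁆ = ⁅prh h r hc x, prh h r hc y⁆ + ⁅prr h r hc x, prr h r hc y⁆ +
      (⁅prh h r hc x, prr h r hc y⁆ + ⁅prr h r hc x, prh h r hc y⁆) := by
    conv_lhs => rw [← prh_add_prr h r hc x, ← prh_add_prr h r hc y]
    simp only [add_lie, lie_add]
    abel
  rw [hx, psi_apply]
  have m1 : ⁅prh h r hc x, prh h r hc y⁆ ∈ h := h.lie_mem (prh_mem h r hc x) (prh_mem h r hc y)
  have m2 : ⁅prr h r hc x, prr h r hc y⁆ ∈ r := r.lie_mem (prr_mem h r hc x) (prr_mem h r hc y)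
  simp only [map_add, lie_smul, smul_lie, map_smul, prh_of_h h r hc m1, prh_of_r h r hc m2,
    prr_of_h h r hc m1, prr_of_r h r hc m2, smul_add, smul_smul, mul_inv_cancel₀ ht, one_smul,
    zero_add, add_zero]
  rw [← mul_assoc, mul_inv_cancel₀ ht, one_mul]
  abel

end

theorem iso : Pool.Agent.TH28.FL.S_ISO.{u,v} := by
  intro k _ g _ _ N b h r hc t ht F hF q
  change pbr b (brt h r hc (some t)) (aeval (fun i => lin b (psi h r hc t⁻¹ (b i))) F) q = 0
  have hq : q = aeval (fun i => lin b (psi h r hc t⁻¹ (b i)))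
      (aeval (fun i => lin b (psi h r hc t (b i))) q) := by
    have : (aeval (fun i => lin b (psi h r hc t⁻¹ (b i)))).comp
        (aeval (fun i => lin b (psi h r hc t (b i)))) = AlgHom.id k (MvPolynomial (Fin N) k) := by
      refine MvPolynomial.algHom_ext (fun i => ?_)
      rw [AlgHom.comp_apply, aeval_X, aeval_lin, psi_psi h r hc t ht, lin_basis]
      rfl
    exact (DFunLike.congr_fun this q).symm
  rw [hq, pbr_aeval b (lieB k g) _ _ (fun x y => brt_psi h r hc t ht x y), hF, map_zero]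

end Pool.Agent.TH228.FL
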