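import Pool.Agent.TH28.FL.Defs
import Pool.Agent.TH228.J1111
import Pool.Agent.TH228.FLA
import Pool.Agent.H598R2.Deriv
set_option autoImplicit false

universe u v

open Module MvPolynomial Pool.Agent.TH28.FL Pool.Agent.TH228.FLA Matrix

namespace Pool.Agent.TH228.FL

section
variable {k : Type u} [Field k] {g : Type v} [LieRing g] [LieAlgebra k g] {N : ℕ}

/-- the generic point -/
noncomputable def gen (k : Type u) [Field k] (N : ℕ) :
    Fin N → FractionRing (MvPolynomial (Fin N) k) :=
  fun i => algebraMap _ _ (X i : MvPolynomial (Fin N) k)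

lemma aeval_gen (p : MvPolynomial (Fin N) k) :
    aeval (gen k N) p = algebraMap _ (FractionRing (MvPolynomial (Fin N) k)) p := by
  have : aeval (gen k N) = IsScalarTower.toAlgHom k (MvPolynomial (Fin N) k)
      (FractionRing (MvPolynomial (Fin N) k)) := by
    refine MvPolynomial.algHom_ext (fun i => ?_)
    rw [aeval_X]
    rfl
  rw [this]
  rfl

lemma fmat_add {K : Type u} [Field K] [Algebra k K] (b : Basis (Fin N) k g)
    (β β' : g →ₗ[k] g →ₗ[k] g) (ξ : Fin N → K) :
    fmat b (β + β') ξ = fmat b β ξ + fmat b β' ξ := by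
  ext i j
  simp [fmat]

lemma fmat_smul {K : Type u} [Field K] [Algebra k K] (b : Basis (Fin N) k g) (c : k)
    (β : g →ₗ[k] g →ₗ[k] g) (ξ : Fin N → K) :
    fmat b (c • β) ξ = algebraMap k K c • fmat b β ξ := by
  ext i j
  simp only [fmat, LinearMap.smul_apply, map_smul, Matrix.of_apply, Matrix.smul_apply,
    algebraMap_smul]

/-- the gradient at the generic point -/
noncomputable def grad (p : MvPolynomial (Fin N) k) :
    Fin N → FractionRing (MvPolynomial (Fin N) k) :=
  fun i => algebraMap _ _ (pderiv i p)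

lemma map_pbr (b : Basis (Fin N) k g) (β : g →ₗ[k] g →ₗ[k] g)
    (p q : MvPolynomial (Fin N) k) :
    algebraMap _ (FractionRing (MvPolynomial (Fin N) k)) (pbr b β p q) =
      grad p ⬝ᵥ (fmat b β (gen k N) *ᵥ grad q) := by
  simp only [pbr, map_sum, map_mul, dotProduct, mulVec, Finset.mul_sum, grad, fmat,
    Matrix.of_apply, aeval_gen]
  refine Finset.sum_congr rfl (fun i _ => Finset.sum_congr rfl (fun j _ => ?_))
  ring

lemma grad_X (j : Fin N) : grad (X j : MvPolynomial (Fin N) k) = Pi.single j 1 := by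
  classical
  ext i
  simp only [grad, pderiv_X, Pi.single_apply]
  split_ifs with h1 h2 h2
  · simp
  · exact absurd h1.symm h2
  · exact absurd h2.symm h1
  · simp

lemma grad_vecMul (b : Basis (Fin N) k g) (β : g →ₗ[k] g →ₗ[k] g)
    (F : MvPolynomial (Fin N) k) (hF : ∀ q, pbr b β F q = 0) :
    grad F ᵥ* fmat b β (gen k N) = 0 := by
  classical
  ext j
  have h1 := map_pbr b β F (X j)
  rw [hF, map_zero, grad_X, Matrix.mulVec_single_one] at h1
  rw [Matrix.vecMul]
  exact h1.symm

lemma pbr_skew (b : Basis (Fin N) k g) (β : g →ₗ[k] g →ₗ[k] g) (hβ : ∀ x y, β y x = - β x y)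
    (p q : MvPolynomial (Fin N) k) : pbr b β q p = - pbr b β p q := by
  unfold pbr
  rw [Finset.sum_comm, ← Finset.sum_neg_distrib]
  refine Finset.sum_congr rfl (fun i _ => ?_)
  rw [← Finset.sum_neg_distrib]
  refine Finset.sum_congr rfl (fun j _ => ?_)
  rw [hβ (b i) (b j), map_neg]
  ring

lemma grad_mulVec (b : Basis (Fin N) k g) (β : g →ₗ[k] g →ₗ[k] g) (hβ : ∀ x y, β y x = - β x y)
    (F : MvPolynomial (Fin N) k) (hF : ∀ q, pbr b β F q = 0) :
    fmat b β (gen k N) *ᵥ grad F = 0 := by
  classical
  ext j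
  have h1 := map_pbr b β (X j) F
  rw [pbr_skew b β hβ F (X j), hF, neg_zero, map_zero, grad_X, single_one_dotProduct] at h1
  exact h1.symm

lemma contr_skew (P Q : g →ₗ[k] g) (x y : g) : contr P Q y x = - contr P Q x y := by
  rw [contr_apply, contr_apply, ← lie_skew (P y) (P x), ← lie_skew (P y) (Q x),
    ← lie_skew (Q y) (P x), neg_add, ← map_neg]
  congr 2
  abel

lemma brt_skew (h r : LieSubalgebra k g) (hc : IsCompl h.toSubmodule r.toSubmodule)
    (t : Option k) (x y : g) : brt h r hc t y x = - brt h r hc t x y := by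
  rcases t with _ | t
  · exact contr_skew _ _ _ _
  · have e : ∀ x y, brt h r hc (some t) x y = contr (prh h r hc) (prr h r hc) x y +
        t • contr (prr h r hc) (prh h r hc) x y := fun _ _ => rfl
    rw [e, e, contr_skew, contr_skew _ _ x y, smul_neg, neg_add]

/-- the rank at the generic point is at least `N - ind` -/
lemma gen_rank (b : Basis (Fin N) k g) (β : g →ₗ[k] g →ₗ[k] g) :
    N ≤ (fmat b β (gen k N)).rank + ind β := by
  classical
  obtain ⟨η, hη⟩ : ∃ η : Dual k g, finrank k (LinearMap.ker (β.compr₂ η)) = ind β :=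
    Nat.sInf_mem (Set.range_nonempty _)
  have hfd : Module.Finite k g := Module.Finite.of_basis b
  let φ : g →ₗ[k] Dual k g := β.compr₂ η
  have h1 : finrank k (LinearMap.range φ) + finrank k (LinearMap.ker φ) = N := by
    rw [LinearMap.finrank_range_add_finrank_ker, finrank_eq_card_basis b, Fintype.card_fin]
  let Mη : Matrix (Fin N) (Fin N) k := Matrix.of fun i j => η (β (b i) (b j))
  have h2 : Mη.rank = finrank k (LinearMap.range φ) := by
    have e : Mηᵀ = LinearMap.toMatrix b b.dualBasis φ := by
      ext i j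
      rw [LinearMap.toMatrix_apply, Basis.dualBasis_repr]
      rfl
    rw [← Matrix.rank_transpose, e, Matrix.rank_eq_finrank_range_toLin _ b.dualBasis b,
      Matrix.toLin_toMatrix]
  obtain ⟨P, Q, hPQ⟩ := exists_PQ Mη Mη.rank rfl
  let F : Matrix (Fin N) (Fin N) (MvPolynomial (Fin N) k) :=
    Matrix.of fun i j => lin b (β (b i) (b j))
  let ev : MvPolynomial (Fin N) k →ₐ[k] k := aeval (fun i => η (b i))
  have hev : ∀ x, ev (lin b x) = η x := by
    intro x
    rw [lin_eq]
    conv_rhs => rw [← b.sum_repr x]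
    simp only [ev, map_sum, map_mul, aeval_X, map_smul, smul_eq_mul, MvPolynomial.aeval_C]
    rfl
  let PC : Matrix (Fin Mη.rank) (Fin N) (MvPolynomial (Fin N) k) := P.map C
  let QC : Matrix (Fin N) (Fin Mη.rank) (MvPolynomial (Fin N) k) := Q.map C
  let D : MvPolynomial (Fin N) k := (PC * F * QC).det
  have hD : ev D = 1 := by
    have : ev D = ((PC * F * QC).map ev).det := by
      exact AlgHom.map_det ev _
    rw [this, Matrix.map_mul, Matrix.map_mul]
    have e1 : PC.map ev = P := by
      ext i j; simp [ev, PC]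
    have e2 : QC.map ev = Q := by
      ext i j; simp [ev, QC]
    have e3 : F.map ev = Mη := by
      ext i j; exact hev _
    rw [e1, e2, e3, hPQ, Matrix.det_one]
  have hD0 : D ≠ 0 := by
    intro h
    rw [h, map_zero] at hD
    exact zero_ne_one hD
  let ι := algebraMap (MvPolynomial (Fin N) k) (FractionRing (MvPolynomial (Fin N) k))
  have hmapD : ι D = (PC.map ι * F.map ι * QC.map ι).det := by
    rw [← Matrix.map_mul, ← Matrix.map_mul]
    exact RingHom.map_det ι _
  have hF : F.map ι = fmat b β (gen k N) := by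
    ext i j
    simp only [F, fmat, Matrix.map_apply, Matrix.of_apply, aeval_gen, ι]
  rw [hF] at hmapD
  have hne : (PC.map ι * fmat b β (gen k N) * QC.map ι).det ≠ 0 := by
    rw [← hmapD]
    intro h
    exact hD0 ((map_eq_zero_iff ι (IsFractionRing.injective _ _)).1 h)
  have hr : Mη.rank ≤ (fmat b β (gen k N)).rank := by
    by_contra hlt
    push Not at hlt
    apply hne
    apply det_zero_of_rank
    rw [Fintype.card_fin]
    exact lt_of_le_of_lt ((Matrix.rank_mul_le_left _ _).trans (Matrix.rank_mul_le_right _ _)) hlt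
  rw [h2] at hr
  change finrank k (LinearMap.ker φ) = ind β at hη
  omega

lemma pbr_add_br (b : Basis (Fin N) k g) (β β' : g →ₗ[k] g →ₗ[k] g)
    (p q : MvPolynomial (Fin N) k) : pbr b (β + β') p q = pbr b β p q + pbr b β' p q := by
  simp only [pbr, LinearMap.add_apply, map_add, mul_add, Finset.sum_add_distrib]

lemma pbr_smul_br (b : Basis (Fin N) k g) (c : k) (β : g →ₗ[k] g →ₗ[k] g)
    (p q : MvPolynomial (Fin N) k) : pbr b (c • β) p q = C c * pbr b β p q := by
  simp only [pbr, LinearMap.smul_apply, map_smul, Finset.mul_sum, smul_eq_C_mul]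
  refine Finset.sum_congr rfl (fun i _ => Finset.sum_congr rfl (fun j _ => ?_))
  ring

lemma pbr_add_left (b : Basis (Fin N) k g) (β : g →ₗ[k] g →ₗ[k] g)
    (p p' q : MvPolynomial (Fin N) k) : pbr b β (p + p') q = pbr b β p q + pbr b β p' q := by
  simp only [pbr, map_add, add_mul, Finset.sum_add_distrib]

lemma pbr_mul_left (b : Basis (Fin N) k g) (β : g →ₗ[k] g →ₗ[k] g)
    (p p' q : MvPolynomial (Fin N) k) :
    pbr b β (p * p') q = p * pbr b β p' q + p' * pbr b β p q := by
  simp only [pbr, Derivation.leibniz, smul_eq_mul, Finset.mul_sum, ← Finset.sum_add_distrib]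
  refine Finset.sum_congr rfl (fun i _ => Finset.sum_congr rfl (fun j _ => ?_))
  ring

lemma pbr_C_left (b : Basis (Fin N) k g) (β : g →ₗ[k] g →ₗ[k] g) (c : k)
    (q : MvPolynomial (Fin N) k) : pbr b β (algebraMap k _ c) q = 0 := by
  simp only [pbr, Derivation.map_algebraMap, zero_mul, Finset.sum_const_zero]

variable (h r : LieSubalgebra k g) (hc : IsCompl h.toSubmodule r.toSubmodule)

lemma lieB_eq : lieB k g = contr (prh h r hc) (prr h r hc) + contr (prr h r hc) (prh h r hc) := by
  ext x y
  change ⁅x, y⁆ = contr (prh h r hc) (prr h r hc) x y + contr (prr h r hc) (prh h r hc) x y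
  rw [contr_apply, contr_apply]
  have hx : ⁅x, y⁆ = ⁅prh h r hc x, prh h r hc y⁆ + ⁅prr h r hc x, prr h r hc y⁆ +
      (⁅prh h r hc x, prr h r hc y⁆ + ⁅prr h r hc x, prh h r hc y⁆) := by
    conv_lhs => rw [← prh_add_prr h r hc x, ← prh_add_prr h r hc y]
    simp only [add_lie, lie_add]
    abel
  rw [hx, add_comm ⁅prr h r hc x, prh h r hc y⁆ ⁅prh h r hc x, prr h r hc y⁆]
  set m := ⁅prh h r hc x, prr h r hc y⁆ + ⁅prr h r hc x, prh h r hc y⁆ with hm
  conv_lhs => rw [← prh_add_prr h r hc m]
  abel

lemma rank_le_of_reg (hRK : S_RK.{u, v}) [CharZero k] (b : Basis (Fin N) k g) (t s : Option k)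
    (ht : isReg h r hc t) :
    (fmat b (brt h r hc s) (gen k N)).rank ≤ (fmat b (brt h r hc t) (gen k N)).rank := by
  have h1 := hRK k (FractionRing (MvPolynomial (Fin N) k)) g N b (brt h r hc s) (gen k N)
  have h2 := gen_rank b (brt h r hc t)
  have h3 := ht s
  omega

lemma algMap_inf (k : Type u) [Field k] [CharZero k] (K : Type u) [Field K] [Algebra k K] :
    ((algebraMap k K) '' {c : k | c ≠ 0}).Infinite := by
  apply Set.Infinite.image (FaithfulSMul.algebraMap_injective k K).injOn
  have : {c : k | c ≠ 0} = ({0} : Set k)ᶜ := by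
    ext c; simp
  rw [this]
  exact (Set.finite_singleton (0 : k)).infinite_compl

lemma both_zero (hRK : S_RK.{u, v}) [CharZero k] (b : Basis (Fin N) k g) (s t : Option k)
    (hs : isReg h r hc s) (F G : MvPolynomial (Fin N) k)
    (hF : ∀ q, pbr b (brt h r hc s) F q = 0) (hG : ∀ q, pbr b (brt h r hc t) G q = 0) :
    pbr b (contr (prh h r hc) (prr h r hc)) F G = 0 ∧
      pbr b (contr (prr h r hc) (prh h r hc)) F G = 0 := by
  set β0 := contr (prh h r hc) (prr h r hc) with hβ0
  set βI := contr (prr h r hc) (prh h r hc) with hβI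
  have hsome : ∀ c : k, brt h r hc (some c) = β0 + c • βI := fun _ => rfl
  have hnone : brt h r hc none = βI := rfl
  have hG' : pbr b (brt h r hc t) F G = 0 := by
    rw [← neg_eq_zero, ← pbr_skew b _ (brt_skew h r hc t) F G]
    exact hG F
  have hF' := hF G
  have hinj : Function.Injective (algebraMap (MvPolynomial (Fin N) k)
    (FractionRing (MvPolynomial (Fin N) k))) := IsFractionRing.injective _ _
  by_cases hst : s = t
  · subst hst
    rcases s with _ | s
    · rw [hnone] at hF'
      refine ⟨?_, hF'⟩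
      apply hinj
      rw [map_zero, map_pbr]
      have hA1 := grad_vecMul b _ F hF
      have hA2 := grad_mulVec b _ (brt_skew h r hc none) G hG
      refine bilin_zero _ _ _ (algMap_inf k (FractionRing (MvPolynomial (Fin N) k))) ?_ _ _
        hA1 hA2
      rintro _ ⟨c, hc0, rfl⟩
      have hc0' : c ≠ 0 := hc0
      have e : fmat b (brt h r hc none) (gen k N) +
          algebraMap k (FractionRing (MvPolynomial (Fin N) k)) c • fmat b β0 (gen k N) =
          algebraMap k (FractionRing (MvPolynomial (Fin N) k)) c •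
            fmat b (brt h r hc (some c⁻¹)) (gen k N) := by
        rw [← fmat_smul, ← fmat_smul, ← fmat_add, hnone, hsome, smul_add, smul_smul,
          mul_inv_cancel₀ hc0', one_smul, add_comm]
      rw [e]
      refine le_trans ?_ (rank_le_of_reg h r hc hRK b none (some c⁻¹) hs)
      have e2 : algebraMap k (FractionRing (MvPolynomial (Fin N) k)) c •
            fmat b (brt h r hc (some c⁻¹)) (gen k N) =
            (algebraMap k (FractionRing (MvPolynomial (Fin N) k)) c •
              (1 : Matrix (Fin N) (Fin N) _)) * fmat b (brt h r hc (some c⁻¹)) (gen k N) := by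
        rw [Matrix.smul_mul, Matrix.one_mul]
      rw [e2]
      exact Matrix.rank_mul_le_right _ _
    · have hI : pbr b βI F G = 0 := by
        apply hinj
        rw [map_zero, map_pbr]
        have hA1 := grad_vecMul b _ F hF
        have hA2 := grad_mulVec b _ (brt_skew h r hc (some s)) G hG
        refine bilin_zero _ _ _ (algMap_inf k (FractionRing (MvPolynomial (Fin N) k))) ?_ _ _
          hA1 hA2
        rintro _ ⟨c, hc0, rfl⟩
        have e : fmat b (brt h r hc (some s)) (gen k N) +
            algebraMap k (FractionRing (MvPolynomial (Fin N) k)) c • fmat b βI (gen k N) =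
              fmat b (brt h r hc (some (s + c))) (gen k N) := by
          rw [← fmat_smul, ← fmat_add, hsome, hsome, add_smul, add_assoc]
        rw [e]
        exact rank_le_of_reg h r hc hRK b (some s) (some (s + c)) hs
      refine ⟨?_, hI⟩
      rw [hsome, pbr_add_br, pbr_smul_br, hI, mul_zero, add_zero] at hF'
      exact hF'
  · rcases s with _ | s <;> rcases t with _ | t
    · exact absurd rfl hst
    · rw [hnone] at hF'
      refine ⟨?_, hF'⟩
      rw [hsome, pbr_add_br, pbr_smul_br, hF', mul_zero, add_zero] at hG'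
      exact hG'
    · rw [hnone] at hG'
      refine ⟨?_, hG'⟩
      rw [hsome, pbr_add_br, pbr_smul_br, hG', mul_zero, add_zero] at hF'
      exact hF'
    · rw [hsome, pbr_add_br, pbr_smul_br] at hF' hG'
      have hne : s - t ≠ 0 := by
        intro h0
        exact hst (by rw [sub_eq_zero.1 h0])
      have h1 : C (s - t) * pbr b βI F G = 0 := by
        rw [C_sub]
        linear_combination hF' - hG'
      have h2 : pbr b βI F G = 0 := by
        rcases mul_eq_zero.1 h1 with h3 | h3
        · exact absurd (C_eq_zero.1 h3) hne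
        · exact h3
      refine ⟨?_, h2⟩
      rw [h2, mul_zero, add_zero] at hF'
      exact hF'

lemma lieB_skew (x y : g) : lieB k g y x = - lieB k g x y := by
  change ⁅y, x⁆ = - ⁅x, y⁆
  rw [lie_skew]

lemma comm_Zalg (hRK : S_RK.{u, v}) [CharZero k] (b : Basis (Fin N) k g)
    (F G : MvPolynomial (Fin N) k) (hF : F ∈ Zalg h r hc b) (hG : G ∈ Zalg h r hc b) :
    pbr b (lieB k g) F G = 0 := by
  have hgen : ∀ F G : MvPolynomial (Fin N) k,
      (∃ t : Option k, isReg h r hc t ∧ ∀ q, pbr b (brt h r hc t) F q = 0) →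
      (∃ t : Option k, isReg h r hc t ∧ ∀ q, pbr b (brt h r hc t) G q = 0) →
      pbr b (lieB k g) F G = 0 := by
    rintro F G ⟨s, hs, hF⟩ ⟨t, ht, hG⟩
    obtain ⟨h1, h2⟩ := both_zero h r hc hRK b s t hs F G hF hG
    rw [lieB_eq h r hc, pbr_add_br, h1, h2, add_zero]
  have step : ∀ G : MvPolynomial (Fin N) k,
      (∃ t : Option k, isReg h r hc t ∧ ∀ q, pbr b (brt h r hc t) G q = 0) →
      ∀ F ∈ Zalg h r hc b, pbr b (lieB k g) F G = 0 := by
    intro G hG F hF
    induction hF using Algebra.adjoin_induction with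
    | mem x hx => exact hgen x G hx hG
    | algebraMap c => exact pbr_C_left _ _ _ _
    | add x y _ _ hx hy => rw [pbr_add_left, hx, hy, add_zero]
    | mul x y _ _ hx hy => rw [pbr_mul_left, hx, hy, mul_zero, mul_zero, add_zero]
  rw [pbr_skew b _ lieB_skew G F, neg_eq_zero]
  induction hG using Algebra.adjoin_induction with
  | mem x hx =>
    rw [pbr_skew b _ lieB_skew F x, neg_eq_zero]
    exact step x hx F hF
  | algebraMap c => exact pbr_C_left _ _ _ _
  | add x y _ _ hx hy => rw [pbr_add_left, hx, hy, add_zero]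
  | mul x y _ _ hx hy => rw [pbr_mul_left, hx, hy, mul_zero, mul_zero, add_zero]

lemma derivation_eq_sum {K : Type u} [Field K] [Algebra k K] [Algebra (MvPolynomial (Fin N) k) K]
    [IsScalarTower k (MvPolynomial (Fin N) k) K] (D : Derivation k K K)
    (p : MvPolynomial (Fin N) k) :
    D (algebraMap (MvPolynomial (Fin N) k) K p) =
      ∑ l : Fin N, algebraMap (MvPolynomial (Fin N) k) K (pderiv l p) *
        D (algebraMap (MvPolynomial (Fin N) k) K (X l)) := by
  classical
  induction p using MvPolynomial.induction_on with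
  | C a =>
    have : algebraMap (MvPolynomial (Fin N) k) K (C a) = algebraMap k K a := by
      rw [IsScalarTower.algebraMap_apply k (MvPolynomial (Fin N) k) K]
      rfl
    rw [this, Derivation.map_algebraMap]
    simp
  | add p q hp hq => simp only [map_add, hp, hq, add_mul, Finset.sum_add_distrib]
  | mul_X p n hp =>
    simp only [map_mul, Derivation.leibniz, hp, smul_eq_mul, map_add, add_mul,
      Finset.sum_add_distrib, Finset.mul_sum]
    congr 1
    · rw [Finset.sum_eq_single n]
      · rw [pderiv_X_self, map_one, mul_one]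
      · intro j _ hj
        rw [pderiv_X_of_ne hj.symm, map_zero, mul_zero, zero_mul]
      · intro h; exact absurd (Finset.mem_univ n) h
    · refine Finset.sum_congr rfl (fun a _ => ?_)
      ring

omit [Field k] [LieRing g] [LieAlgebra k g] in
lemma dual_exists {k : Type u} [Field k] [CharZero k] {K : Type u} [Field K] [Algebra k K]
    {m : ℕ} (f : Fin m → K) (hf : AlgebraicIndependent k f) :
    ∃ D : Fin m → Derivation k K K, ∀ i j : Fin m, D i (f j) = if j = i then 1 else 0 := by
  classical
  obtain ⟨T, hT, hB⟩ := exists_isTranscendenceBasis_superset hf.coe_range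
  have hD : ∀ i : Fin m, ∃ D : Derivation k K K, ∀ j : Fin m,
      D (f j) = if j = i then 1 else 0 := by
    intro i
    obtain ⟨D, hD⟩ := Pool.Agent.H598R2.exists_derivation hB (⟨f i, hT ⟨i, rfl⟩⟩ : T)
    refine ⟨D, fun j => ?_⟩
    have h1 := hD ⟨f j, hT ⟨j, rfl⟩⟩
    by_cases hji : j = i
    · subst hji
      rw [if_pos rfl]
      rw [if_pos rfl] at h1
      exact h1
    · rw [if_neg hji]
      rw [if_neg] at h1
      · exact h1
      · intro h2
        exact hji (hf.injective (congrArg Subtype.val h2))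
  choose D hD using hD
  exact ⟨D, hD⟩

lemma rank_of_rightInv {K : Type*} [Field K] {m N : ℕ} (V : Matrix (Fin m) (Fin N) K)
    (E : Matrix (Fin N) (Fin m) K) (h : V * E = 1) : V.rank = m := by
  apply le_antisymm
  · exact Matrix.rank_le_height V
  · have h1 := Matrix.rank_mul_le_left V E
    rw [h, Matrix.rank_one, Fintype.card_fin] at h1
    exact h1

lemma alg_map {A K : Type u} [CommRing A] [Algebra k A] [CommRing K] [Algebra k K]
    (φ : A →ₐ[k] K) (hφ : Function.Injective φ) {m : ℕ} (f : Fin m → A)
    (hf : AlgebraicIndependent k f) : AlgebraicIndependent k (fun i => φ (f i)) := hf.map' hφ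

lemma grad_rank_aux [CharZero k] {K : Type u} [Field K] [Algebra k K]
    [Algebra (MvPolynomial (Fin N) k) K] [IsScalarTower k (MvPolynomial (Fin N) k) K]
    (hinj : Function.Injective (algebraMap (MvPolynomial (Fin N) k) K))
    {m : ℕ} (f : Fin m → MvPolynomial (Fin N) k) (hf : AlgebraicIndependent k f) :
    (Matrix.of fun i l => algebraMap (MvPolynomial (Fin N) k) K (pderiv l (f i)) :
      Matrix (Fin m) (Fin N) K).rank = m := by
  classical
  obtain ⟨D, hD⟩ := dual_exists _ (alg_map (IsScalarTower.toAlgHom k (MvPolynomial (Fin N) k) K)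
    hinj f hf)
  refine rank_of_rightInv _
    (Matrix.of fun l i => D i (algebraMap (MvPolynomial (Fin N) k) K (X l))) ?_
  ext j i
  rw [Matrix.mul_apply, Matrix.one_apply, ← hD i j]
  simp only [Matrix.of_apply]
  exact (derivation_eq_sum (D i) (f j)).symm

lemma grad_rank [CharZero k] {m : ℕ} (f : Fin m → MvPolynomial (Fin N) k)
    (hf : AlgebraicIndependent k f) :
    (Matrix.of fun i => grad (f i) :
      Matrix (Fin m) (Fin N) (FractionRing (MvPolynomial (Fin N) k))).rank = m :=
  grad_rank_aux (K := FractionRing (MvPolynomial (Fin N) k))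
    (IsFractionRing.injective (MvPolynomial (Fin N) k) _) f hf

end

theorem pc (hRK : Pool.Agent.TH28.FL.S_RK.{u,v}) : Pool.Agent.TH28.FL.S_PC.{u,v} := by
  intro k _ _ g _ _ N b h r hc m f hf hind
  have h1 := gen_rank b (lieB k g)
  have h2 : 2 * m + (fmat b (lieB k g) (gen k N)).rank ≤ 2 * N := by
    refine isotropic_bound (Matrix.of fun i => grad (f i)) _ (grad_rank f hind) ?_
    ext i j
    have e : ((Matrix.of fun i => grad (f i) :
        Matrix (Fin m) (Fin N) (FractionRing (MvPolynomial (Fin N) k))) *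
        fmat b (lieB k g) (gen k N) * (Matrix.of fun i => grad (f i) :
        Matrix (Fin m) (Fin N) (FractionRing (MvPolynomial (Fin N) k)))ᵀ) i j =
        grad (f i) ⬝ᵥ (fmat b (lieB k g) (gen k N) *ᵥ grad (f j)) := by
      rw [Matrix.mul_assoc]
      rfl
    rw [e, ← map_pbr, comm_Zalg h r hc hRK b _ _ (hf i) (hf j), map_zero]
    rfl
  omega

end Pool.Agent.TH228.FL
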