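import Pool.Agent.TH614.HS.Base

/-! Project HS, piece B5: two ramified generators through a nonspecial point are proportional. -/

set_option autoImplicit false

namespace Pool.Agent.TH228.J3878

open Pool.Agent.TH614.HS

/-- linear algebra: the ratio of two triples in the plane `u + v = w`, `th w = g (u - v)` -/
theorem ratio {L : Type} [Field L] {th g s t a b c a' b' c' : L} (h2 : (2 : L) ≠ 0) (hg : g ≠ 0)
    (hs : s ≠ 0) (ht : t ≠ 0) (hb : b ≠ 0)
    (h1 : s * a + t * c - b / (s * t) = 0) (h3 : th * (b / (s * t)) = g * (s * a - t * c))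
    (h1' : s * a' + t * c' - b' / (s * t) = 0)
    (h3' : th * (b' / (s * t)) = g * (s * a' - t * c')) : a' = b' / b * a ∧ c' = b' / b * c := by
  have e1 : 2 * g * (s * a) = (g + th) * (b / (s * t)) := by linear_combination g * h1 - h3
  have e2 : 2 * g * (t * c) = (g - th) * (b / (s * t)) := by linear_combination g * h1 + h3
  have e1' : 2 * g * (s * a') = (g + th) * (b' / (s * t)) := by linear_combination g * h1' - h3'
  have e2' : 2 * g * (t * c') = (g - th) * (b' / (s * t)) := by linear_combination g * h1' + h3'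
  have k : b' / (s * t) = b' / b * (b / (s * t)) := by field_simp
  refine ⟨?_, ?_⟩
  · have : (2 * g * s) * a' = (2 * g * s) * (b' / b * a) := by
      calc (2 * g * s) * a' = 2 * g * (s * a') := by ring
        _ = b' / b * ((g + th) * (b / (s * t))) := by rw [e1', k]; ring
        _ = (2 * g * s) * (b' / b * a) := by rw [← e1]; ring
    exact mul_left_cancel₀ (mul_ne_zero (mul_ne_zero h2 hg) hs) this
  · have : (2 * g * t) * c' = (2 * g * t) * (b' / b * c) := by
      calc (2 * g * t) * c' = 2 * g * (t * c') := by ring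
        _ = b' / b * ((g - th) * (b / (s * t))) := by rw [e2', k]; ring
        _ = (2 * g * t) * (b' / b * c) := by rw [← e2]; ring
    exact mul_left_cancel₀ (mul_ne_zero (mul_ne_zero h2 hg) ht) this

/-- (B5) -/
theorem B5 : S_B5 := by
  intro L _ _ D x x' s mu eta be g ep mu' eta' be' g' ep' P Y hx hx' hR hR' hm hm' hns
  obtain ⟨⟨hs, -⟩, -, -, -, -, -, hg, -, -, hU, -⟩ := hR
  obtain ⟨-, -, -, -, -, -, -, -, -, hU', -⟩ := hR'
  have hns' : ¬ (s * P = D.nt s * P ^ (D.q ^ 4) ∧
      s * P = -(P ^ (D.q ^ 2) / (s * D.nt s)) ∧ Y = D.th * (s * P)) := hns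
  have ht : D.nt s ≠ 0 := by
    unfold HD.nt
    exact inv_ne_zero (pow_ne_zero _ hs)
  generalize D.nt s = t at *
  have h2 : (2 : L) ≠ 0 := D.two_ne
  have hth := D.th2
  simp only [l1, l2] at hU hU'
  obtain ⟨p1, p2, -⟩ := hU _ _ _ _ (hm.onL hx)
  obtain ⟨-, p2', -⟩ := hU' _ _ _ _ (hm'.onL hx')
  -- the form `l1` does not vanish at the point
  have hl : s * P - t * P ^ (D.q ^ 4) ≠ 0 := by
    intro h0
    apply hns'
    generalize P ^ (D.q ^ 2) / (s * t) = W at *
    generalize P ^ (D.q ^ 4) = P2 at *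
    have hY : Y = -(D.th * W) := by
      rw [h0, mul_zero] at p2
      linear_combination p2
    have hW : s * P = -W := by
      have : 2 * (s * P) = 2 * (-W) := by
        rw [hY] at p1
        linear_combination p1 + h0 - W * hth
      exact mul_left_cancel₀ h2 this
    refine ⟨by linear_combination h0, hW, ?_⟩
    rw [hW, hY]; ring
  have hgg : g = g' := mul_right_cancel₀ hl (by rw [← p2, ← p2'])
  subst hgg
  -- the points with `Y = 0`
  have hq : OnL x (x ^ (D.q ^ 2)) (x ^ (D.q ^ 4)) (x ^ (D.q ^ 3)) (x ^ (D.q ^ 5)) (x ^ D.q)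
      x (x ^ (D.q ^ 2)) (x ^ (D.q ^ 4)) 0 := ⟨by ring, by ring, by ring⟩
  have hq' : OnL x' (x' ^ (D.q ^ 2)) (x' ^ (D.q ^ 4)) (x' ^ (D.q ^ 3)) (x' ^ (D.q ^ 5)) (x' ^ D.q)
      x' (x' ^ (D.q ^ 2)) (x' ^ (D.q ^ 4)) 0 := ⟨by ring, by ring, by ring⟩
  obtain ⟨a1, a2, -⟩ := hU _ _ _ _ hq
  obtain ⟨b1, b2, -⟩ := hU' _ _ _ _ hq'
  have hx1 : x ^ (D.q ^ 2) ≠ 0 := pow_ne_zero _ hx.ne
  obtain ⟨r0, -⟩ := ratio (th := D.th) (g := g) (s := s) (t := t) (a := x) (b := x ^ (D.q ^ 2))
    (c := x ^ (D.q ^ 4)) (a' := x') (b' := x' ^ (D.q ^ 2)) (c' := x' ^ (D.q ^ 4)) h2 hg hs ht hx1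
    (by linear_combination a1) (by linear_combination a2) (by linear_combination b1)
    (by linear_combination b2)
  set c : L := x' ^ (D.q ^ 2) / x ^ (D.q ^ 2) with hc
  refine ⟨c, ?_, r0⟩
  have hc0 : c ≠ 0 := div_ne_zero (pow_ne_zero _ hx'.ne) hx1
  -- `th + g ≠ 0`
  have hgt : D.th + g ≠ 0 := by
    intro h0
    have e : 2 * g * (s * x) = 0 := by
      have hk : 2 * g * (s * x) = (D.th + g) * (x ^ (D.q ^ 2) / (s * t)) := by
        linear_combination g * a1 - a2
      rw [hk, h0, zero_mul]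
    exact mul_ne_zero (mul_ne_zero h2 hg) (mul_ne_zero hs hx.ne) e
  -- the points with `P0 = 0`, `Y = 1`
  obtain ⟨c1, c2, -⟩ := hU _ _ _ _ (OnL.param hx.PL 0 1)
  obtain ⟨d1, d2, -⟩ := hU' _ _ _ _ (OnL.param hx'.PL 0 1)
  simp only [mul_zero, zero_add, one_mul, zero_sub] at c1 c2 d1 d2
  have hk : x ^ D.q / x = x' ^ D.q / x' := by
    generalize x ^ D.q / x = A at *
    generalize x' ^ D.q / x' = B at *
    generalize -x ^ (D.q ^ 5) / x = A' at *
    generalize -x' ^ (D.q ^ 5) / x' = B' at *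
    have e : (D.th + g) * ((A - B) / (s * t)) = 0 := by
      have e1 : t * (A' - B') = (A - B) / (s * t) := by
        rw [sub_div]
        linear_combination c1 - d1
      have e2 : D.th * ((A - B) / (s * t)) = -g * (t * (A' - B')) := by
        rw [sub_div]
        linear_combination c2 - d2
      rw [add_mul, e2, e1]; ring
    have e3 := (mul_eq_zero.1 e).resolve_left hgt
    have e4 := (div_eq_zero_iff.1 e3).resolve_right (mul_ne_zero hs ht)
    exact sub_eq_zero.1 e4
  have hx0 := hx.ne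
  have hx0' := hx'.ne
  rw [div_eq_div_iff hx0 hx0'] at hk
  have e5 : x ^ D.q * x * c = c ^ D.q * (x ^ D.q * x) := by
    have : x' ^ D.q = c ^ D.q * x ^ D.q := by rw [r0, mul_pow]
    rw [this] at hk
    have h6 : x ^ D.q * (c * x) = c ^ D.q * x ^ D.q * x := by rw [← r0]; exact hk
    linear_combination h6
  have hne : x ^ D.q * x ≠ 0 := mul_ne_zero (pow_ne_zero _ hx0) hx0
  exact mul_right_cancel₀ hne (by linear_combination -e5)

end Pool.Agent.TH228.J3878
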