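import Mathlib

/-!
Real versus complex minimum rank of graphs (MP_9d9bd3_co).

`pat` is the zero pattern of the Moebius-Kantor configuration.  A real `8 x 8` matrix with exactly
this zero pattern has a nonzero `4 x 4` minor, while there is a complex one of rank three.
Replacing every vertex of the bipartite graph of `pat` by seven pairwise nonadjacent twins
forces zero diagonal entries in a symmetric matrix of rank at most six.
-/

set_option autoImplicit false

namespace Pool.Agent.TH228.MinRank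

open Matrix

/-- Zero positions of the pattern: `j - i` is `0`, `1` or `3` modulo `8`. -/
def pat (i j : Fin 8) : Prop := j - i ≠ 0 ∧ j - i ≠ 1 ∧ j - i ≠ 3

instance (i j : Fin 8) : Decidable (pat i j) := by unfold pat; infer_instance

/-- vertices before the blow-up -/
abbrev W := Fin 8 ⊕ Fin 8

/-- adjacency before the blow-up -/
def wadj : W → W → Prop
  | Sum.inl i, Sum.inr j => pat i j
  | Sum.inr j, Sum.inl i => pat i j
  | _, _ => False

theorem wadj_symm {x y : W} (h : wadj x y) : wadj y x := by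
  rcases x with i | i <;> rcases y with j | j <;> exact h

theorem wadj_irrefl (x : W) : ¬ wadj x x := by
  rcases x with i | i <;> simp [wadj]

/-- vertices of the blow-up -/
abbrev V := W × Fin 7

/-- the blow-up graph -/
def G : SimpleGraph V where
  Adj p q := wadj p.1 q.1
  symm := ⟨fun _ _ h => wadj_symm h⟩
  loopless := ⟨fun p h => wadj_irrefl p.1 h⟩

/-! ### The real side -/

/-- Every real `8 x 8` matrix with zero pattern `pat` has a nonzero `4 x 4` minor. -/
theorem real_side (b : Fin 8 → Fin 8 → ℝ) (hb : ∀ i j, b i j ≠ 0 ↔ pat i j)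
    (hdet : ∀ r c : Fin 4 → Fin 8, (Matrix.of fun x y => b (r x) (c y)).det = 0) : False := by
  have z : ∀ i j, ¬ pat i j → b i j = 0 := fun i j h => by
    by_contra h'
    exact h ((hb i j).1 h')
  have nz : ∀ i j, pat i j → b i j ≠ 0 := fun i j h => (hb i j).2 h
  have n02 := nz 0 2 (by decide)
  have n13 := nz 1 3 (by decide)
  have n20 := nz 2 0 (by decide)
  have z00 := z 0 0 (by decide)
  have z03 := z 0 3 (by decide)
  have z12 := z 1 2 (by decide)
  have z22 := z 2 2 (by decide)
  have z23 := z 2 3 (by decide)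
  have dep : ∀ i : Fin 8, ∃ α β γ : ℝ, ∀ j : Fin 8, b i j = α * b 0 j + β * b 1 j + γ * b 2 j := by
    intro i
    refine ⟨b i 2 / b 0 2, b i 3 / b 1 3, (b i 0 - b i 3 / b 1 3 * b 1 0) / b 2 0, fun j => ?_⟩
    have h := hdet ![0, 1, 2, i] ![2, 3, 0, j]
    simp [Matrix.det_succ_row_zero, Fin.sum_univ_succ, Fin.succAbove, z00, z03, z12, z22, z23] at h
    field_simp
    linear_combination h
  -- row 3
  obtain ⟨a3, b3, c3, h3⟩ := dep 3
  have e33 := h3 3
  rw [z 3 3 (by decide), z03, z23] at e33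
  have hb3 : b3 = 0 := by
    have : b3 * b 1 3 = 0 := by linarith
    exact (mul_eq_zero.1 this).resolve_right n13
  have e32 := h3 2
  rw [z12, z22] at e32
  have ha3 : a3 ≠ 0 := by
    rintro rfl
    exact nz 3 2 (by decide) (by rw [e32]; ring)
  have e34 := h3 4
  rw [z 3 4 (by decide), hb3] at e34
  have e36 := h3 6
  rw [z 3 6 (by decide), hb3] at e36
  have n24 := nz 2 4 (by decide)
  have n26 := nz 2 6 (by decide)
  obtain ⟨p, hp⟩ : ∃ p : ℝ, p = - c3 / a3 := ⟨_, rfl⟩
  have p4 : b 0 4 = p * b 2 4 := by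
    rw [hp]; field_simp; linarith
  have p6 : b 0 6 = p * b 2 6 := by
    rw [hp]; field_simp; linarith
  -- row 7
  obtain ⟨a7, b7, c7, h7⟩ := dep 7
  have e72 := h7 2
  rw [z 7 2 (by decide), z12, z22] at e72
  have ha7 : a7 = 0 := by
    have : a7 * b 0 2 = 0 := by linarith
    exact (mul_eq_zero.1 this).resolve_right n02
  have e73 := h7 3
  rw [z03, z23] at e73
  have hb7 : b7 ≠ 0 := by
    rintro rfl
    exact nz 7 3 (by decide) (by rw [e73]; ring)
  have e77 := h7 7
  rw [z 7 7 (by decide), ha7] at e77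
  have e70 := h7 0
  rw [z 7 0 (by decide), ha7] at e70
  obtain ⟨q, hq⟩ : ∃ q : ℝ, q = - c7 / b7 := ⟨_, rfl⟩
  have q7 : b 1 7 = q * b 2 7 := by
    rw [hq]; field_simp; linarith
  have q0 : b 1 0 = q * b 2 0 := by
    rw [hq]; field_simp; linarith
  -- row 6
  obtain ⟨a6, b6, c6, h6⟩ := dep 6
  have e61 := h6 1
  rw [z 6 1 (by decide), z 0 1 (by decide), z 1 1 (by decide)] at e61
  have hc6 : c6 = 0 := by
    have : c6 * b 2 1 = 0 := by linarith
    exact (mul_eq_zero.1 this).resolve_right (nz 2 1 (by decide))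
  have e62 := h6 2
  rw [z12, z22] at e62
  have ha6 : a6 ≠ 0 := by
    rintro rfl
    exact nz 6 2 (by decide) (by rw [e62]; ring)
  have e63 := h6 3
  rw [z03, z23] at e63
  have hb6 : b6 ≠ 0 := by
    rintro rfl
    exact nz 6 3 (by decide) (by rw [e63]; ring)
  have e66 := h6 6
  rw [z 6 6 (by decide), hc6, p6] at e66
  have e67 := h6 7
  rw [z 6 7 (by decide), hc6, q7] at e67
  have n27 := nz 2 7 (by decide)
  obtain ⟨s, hs⟩ : ∃ s : ℝ, s = b 0 7 / b 2 7 := ⟨_, rfl⟩
  have s7 : b 0 7 = s * b 2 7 := by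
    rw [hs]; field_simp
  have hs0 : s ≠ 0 := by
    rintro rfl
    exact nz 0 7 (by decide) (by rw [s7]; ring)
  rw [s7] at e67
  have e67' : a6 * s + b6 * q = 0 := by
    have : (a6 * s + b6 * q) * b 2 7 = 0 := by linarith
    exact (mul_eq_zero.1 this).resolve_right n27
  -- `s * b 1 6 = p * q * b 2 6`
  have s16 : s * b 1 6 = p * q * b 2 6 := by
    have h1 : b6 * (s * b 1 6 - p * q * b 2 6) = 0 := by
      linear_combination (-s) * e66 - p * b 2 6 * e67'
    have := (mul_eq_zero.1 h1).resolve_left hb6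
    linarith
  -- row 4
  obtain ⟨a4, b4, c4, h4⟩ := dep 4
  have e42 := h4 2
  rw [z12, z22] at e42
  have ha4 : a4 ≠ 0 := by
    rintro rfl
    exact nz 4 2 (by decide) (by rw [e42]; ring)
  have e44 := h4 4
  rw [z 4 4 (by decide), z 1 4 (by decide), p4] at e44
  have e44' : a4 * p + c4 = 0 := by
    have : (a4 * p + c4) * b 2 4 = 0 := by linarith
    exact (mul_eq_zero.1 this).resolve_right n24
  have e45 := h4 5
  rw [z 4 5 (by decide), z 2 5 (by decide)] at e45
  have e47 := h4 7
  rw [z 4 7 (by decide), s7, q7] at e47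
  have e47' : a4 * s + b4 * q + c4 = 0 := by
    have : (a4 * s + b4 * q + c4) * b 2 7 = 0 := by linarith
    exact (mul_eq_zero.1 this).resolve_right n27
  -- `q * b 0 5 = (s - p) * b 1 5`
  have s05 : q * b 0 5 = (s - p) * b 1 5 := by
    have h1 : a4 * (q * b 0 5 - (s - p) * b 1 5) = 0 := by
      linear_combination (-q) * e45 + b 1 5 * e44' - b 1 5 * e47'
    have := (mul_eq_zero.1 h1).resolve_left ha4
    linarith
  -- row 5
  obtain ⟨a5, b5, c5, h5⟩ := dep 5
  have e52 := h5 2
  rw [z12, z22] at e52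
  have ha5 : a5 ≠ 0 := by
    rintro rfl
    exact nz 5 2 (by decide) (by rw [e52]; ring)
  have e55 := h5 5
  rw [z 5 5 (by decide), z 2 5 (by decide)] at e55
  have e56 := h5 6
  rw [z 5 6 (by decide), p6] at e56
  have e50 := h5 0
  rw [z 5 0 (by decide), z00, q0] at e50
  have e50' : b5 * q + c5 = 0 := by
    have : (b5 * q + c5) * b 2 0 = 0 := by linarith
    exact (mul_eq_zero.1 this).resolve_right n20
  have n15 := nz 1 5 (by decide)
  have e55' : a5 * (s - p) + b5 * q = 0 := by
    have : (a5 * (s - p) + b5 * q) * b 1 5 = 0 := by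
      linear_combination (-q) * e55 - a5 * s05
    exact (mul_eq_zero.1 this).resolve_right n15
  have e56' : a5 * p * s + b5 * p * q + c5 * s = 0 := by
    have : (a5 * p * s + b5 * p * q + c5 * s) * b 2 6 = 0 := by
      linear_combination (-s) * e56 - b5 * s16
    exact (mul_eq_zero.1 this).resolve_right n26
  have fin : a5 * (s ^ 2 - p * s + p ^ 2) = 0 := by
    linear_combination e56' - s * e50' - (p - s) * e55'
  have fin' : s ^ 2 - p * s + p ^ 2 = 0 := (mul_eq_zero.1 fin).resolve_left ha5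
  have : 0 < s ^ 2 := by positivity
  nlinarith [sq_nonneg (s - 2 * p), sq_nonneg (s - p), sq_nonneg (s + p), sq_nonneg p]

/-- The real lower bound: a symmetric real matrix of the blow-up graph has rank at least seven. -/
theorem real_rank (A : Matrix V V ℝ) (hs : A.IsSymm)
    (hA : ∀ x y : V, x ≠ y → (A x y ≠ 0 ↔ G.Adj x y)) : 6 < A.rank := by
  by_contra hlt
  have hle : A.rank ≤ 6 := by omega
  -- every vertex has a copy with zero diagonal entry
  have hdiag : ∀ x : W, ∃ a : Fin 7, A (x, a) (x, a) = 0 := by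
    intro x
    by_contra hne
    push Not at hne
    have h1 : (A.submatrix (fun a : Fin 7 => (x, a)) (fun a : Fin 7 => (x, a))) =
        Matrix.diagonal (fun a : Fin 7 => A (x, a) (x, a)) := by
      ext a c
      by_cases hac : a = c
      · subst hac; simp
      · rw [Matrix.diagonal_apply_ne _ hac]
        by_contra h0
        have hne' : ((x, a) : V) ≠ (x, c) := fun h => hac (Prod.ext_iff.1 h).2
        exact wadj_irrefl x ((hA (x, a) (x, c) hne').1 h0)
    have h2 := rank_submatrix_le A (fun a : Fin 7 => ((x, a) : V)) (fun a : Fin 7 => ((x, a) : V))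
    rw [h1, rank_of_det_ne_zero] at h2
    · simp at h2; omega
    · rw [Matrix.det_diagonal]
      exact Finset.prod_ne_zero_iff.2 fun a _ => hne a
  choose f hf using hdiag
  have hadj : ∀ x y : W, A (x, f x) (y, f y) ≠ 0 ↔ wadj x y := by
    intro x y
    by_cases hxy : x = y
    · subst hxy
      simp [hf, wadj_irrefl]
    · exact hA _ _ fun h => hxy (Prod.ext_iff.1 h).1
  set b : Fin 8 → Fin 8 → ℝ := fun i j =>
    A (Sum.inl i, f (Sum.inl i)) (Sum.inr j, f (Sum.inr j)) with hbdef
  refine real_side b (fun i j => by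
    rw [hbdef]
    exact hadj (Sum.inl i) (Sum.inr j)) fun r c => ?_
  by_contra hd
  -- the `8 x 8` submatrix
  set D : Matrix (Fin 4) (Fin 4) ℝ := Matrix.of fun x y => b (r x) (c y) with hD
  let g : Fin 4 ⊕ Fin 4 → V := Sum.elim (fun x => (Sum.inl (r x), f (Sum.inl (r x))))
    (fun y => (Sum.inr (c y), f (Sum.inr (c y))))
  have hsub : A.submatrix g g = Matrix.fromBlocks 0 D Dᵀ 0 := by
    ext x y
    rcases x with x | x <;> rcases y with y | y
    · simp only [submatrix_apply, fromBlocks_apply₁₁, Matrix.zero_apply, g, Sum.elim_inl]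
      by_contra h0
      exact (hadj _ _).1 h0
    · simp [g, hD, hbdef]
    · simp only [submatrix_apply, fromBlocks_apply₂₁, transpose_apply, g, Sum.elim_inl,
        Sum.elim_inr, hD, hbdef, of_apply]
      exact hs.apply _ _
    · simp only [submatrix_apply, fromBlocks_apply₂₂, Matrix.zero_apply, g, Sum.elim_inr]
      by_contra h0
      exact (hadj _ _).1 h0
  have hr := rank_submatrix_le A g g
  rw [hsub, rank_of_det_ne_zero] at hr
  · simp at hr; omega
  · intro h0
    have h1 : (Matrix.fromBlocks 0 D Dᵀ 0 : Matrix (Fin 4 ⊕ Fin 4) (Fin 4 ⊕ Fin 4) ℝ) *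
        Matrix.fromBlocks 0 1 1 0 = Matrix.fromBlocks D 0 0 Dᵀ := by
      rw [Matrix.fromBlocks_multiply]; simp
    have h2 := congrArg Matrix.det h1
    rw [Matrix.det_mul, h0, zero_mul, Matrix.det_fromBlocks_zero₂₁, Matrix.det_transpose] at h2
    exact hd (by simpa using h2.symm)

/-! ### The complex side -/

/-- left factor -/
def U (s : ℂ) : Matrix (Fin 8) (Fin 3) ℂ :=
  !![1, 0, 0; 0, 1, 0; 0, 0, 1; 1, 0, -1; 1, 1 - s, -1; s, 1, -1; 1, -s, 0; 0, 1, -1]

/-- right factor -/
def R (s : ℂ) : Matrix (Fin 3) (Fin 8) ℂ :=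
  !![0, 0, 1, 0, 1, s - 1, 1, s; 1, 0, 0, 1, 0, 1, 1 - s, 1; 1, 1, 0, 0, 1, 0, 1, 1]

/-- the product -/
def B (s : ℂ) : Matrix (Fin 8) (Fin 8) ℂ :=
  !![0, 0, 1, 0, 1, s - 1, 1, s;
     1, 0, 0, 1, 0, 1, 1 - s, 1;
     1, 1, 0, 0, 1, 0, 1, 1;
     -1, -1, 1, 0, 0, s - 1, 0, s - 1;
     -s, -1, 1, 1 - s, 0, 0, -s, 0;
     0, -1, s, 1, s - 1, 0, 0, s - 1;
     -s, 0, 1, -s, 1, -1, 0, 0;
     0, -1, 0, 1, -1, 1, -s, 0]

theorem UR (s : ℂ) (h : s ^ 2 = s - 1) : U s * R s = B s := by
  ext i j
  fin_cases i <;> fin_cases j <;>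
    simp [U, R, B, Matrix.mul_apply, Fin.sum_univ_three] <;>
    first
      | done
      | ring1
      | linear_combination h

theorem exists_s : ∃ s : ℂ, s ^ 2 = s - 1 := by
  refine ⟨1 / 2 + (Real.sqrt 3 / 2 : ℝ) * Complex.I, ?_⟩
  apply Complex.ext
  · simp [pow_two]
    have := Real.mul_self_sqrt (show (0 : ℝ) ≤ 3 by norm_num)
    nlinarith
  · simp [pow_two]
    ring

theorem B_pat (s : ℂ) (h : s ^ 2 = s - 1) (i j : Fin 8) : B s i j ≠ 0 ↔ pat i j := by
  have s0 : s ≠ 0 := by
    rintro rfl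
    norm_num at h
  have s1 : s - 1 ≠ 0 := by
    intro h1
    rw [h1] at h
    exact s0 (by simpa using h)
  have s2 : 1 - s ≠ 0 := by
    intro h1
    exact s1 (by linear_combination -h1)
  fin_cases i <;> fin_cases j <;>
    simp only [B, Matrix.of_apply] <;>
    first
      | exact iff_of_true (by simpa using s0) (by decide)
      | exact iff_of_true (by simpa using s1) (by decide)
      | exact iff_of_true (by simpa using s2) (by decide)
      | exact iff_of_true (by simp) (by decide)
      | exact iff_of_false (by simp) (by decide)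

/-- the complex symmetric matrix of the blow-up graph -/
def M (s : ℂ) : Matrix V V ℂ := Matrix.of fun x y =>
  match x.1, y.1 with
  | Sum.inl i, Sum.inr j => B s i j
  | Sum.inr j, Sum.inl i => B s i j
  | _, _ => 0

/-- left factor of `M` -/
def P (s : ℂ) : Matrix V (Fin 3 ⊕ Fin 3) ℂ := Matrix.of fun x k =>
  match x.1, k with
  | Sum.inl i, Sum.inl k => U s i k
  | Sum.inr j, Sum.inr k => R s k j
  | _, _ => 0

/-- right factor of `M` -/
def Q (s : ℂ) : Matrix (Fin 3 ⊕ Fin 3) V ℂ := Matrix.of fun k y =>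
  match k, y.1 with
  | Sum.inl k, Sum.inr j => R s k j
  | Sum.inr k, Sum.inl i => U s i k
  | _, _ => 0

theorem M_eq (s : ℂ) (h : s ^ 2 = s - 1) : M s = P s * Q s := by
  ext ⟨x, a⟩ ⟨y, c⟩
  rw [Matrix.mul_apply, Fintype.sum_sum_type]
  rcases x with i | i <;> rcases y with j | j
  · simp [M, P, Q]
  · have := congrFun (congrFun (UR s h) i) j
    rw [Matrix.mul_apply] at this
    simp [M, P, Q, ← this]
  · have := congrFun (congrFun (UR s h) j) i
    rw [Matrix.mul_apply] at this
    simp [M, P, Q, ← this, mul_comm]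
  · simp [M, P, Q]

theorem M_rank (s : ℂ) (h : s ^ 2 = s - 1) : (M s).rank ≤ 6 := by
  rw [M_eq s h]
  refine (rank_mul_le_left _ _).trans ((rank_le_card_width _).trans ?_)
  simp

theorem M_symm (s : ℂ) : (M s).IsSymm := by
  ext ⟨x, a⟩ ⟨y, c⟩
  rcases x with i | i <;> rcases y with j | j <;> simp [M]

theorem M_adj (s : ℂ) (h : s ^ 2 = s - 1) (x y : V) : M s x y ≠ 0 ↔ G.Adj x y := by
  obtain ⟨x, a⟩ := x
  obtain ⟨y, c⟩ := y
  rcases x with i | i <;> rcases y with j | j
  · simp [M, G, wadj]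
  · exact B_pat s h i j
  · exact B_pat s h j i
  · simp [M, G, wadj]

/-- The minimum rank over the reals can exceed the one over the complex numbers. -/
theorem main :
    ∃ n : ℕ, ∃ G : SimpleGraph (Fin n), ∃ B : Matrix (Fin n) (Fin n) ℂ,
      B.IsSymm ∧ (∀ i j : Fin n, i ≠ j → (B i j ≠ 0 ↔ G.Adj i j)) ∧
      ∀ A : Matrix (Fin n) (Fin n) ℝ, A.IsSymm →
        (∀ i j : Fin n, i ≠ j → (A i j ≠ 0 ↔ G.Adj i j)) →
        B.rank < A.rank := by
  obtain ⟨s, hs⟩ := exists_s
  let e : V ≃ Fin (Fintype.card V) := Fintype.equivFin V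
  refine ⟨Fintype.card V, G.comap e.symm, (M s).submatrix e.symm e.symm, ?_, ?_, ?_⟩
  · exact (M_symm s).submatrix _
  · intro i j _
    exact M_adj s hs _ _
  · intro A hA hadj
    rw [rank_submatrix]
    refine (M_rank s hs).trans_lt ?_
    rw [← rank_submatrix A e e]
    refine real_rank _ (hA.submatrix _) fun x y hxy => ?_
    have := hadj (e x) (e y) (fun h => hxy (e.injective h))
    simpa using this

end Pool.Agent.TH228.MinRank
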